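import Mathlib

namespace Pool.Agent.H62.Toric

open Polynomial

/-- Jacobi operator with diagonal `1,2,2,...`. -/
noncomputable def opA : (ℕ → ℤ[X]) →ₗ[ℤ[X]] (ℕ → ℤ[X]) where
  toFun v := fun m => match m with
    | 0 => v 0 + X * v 1
    | (m + 1) => v m + 2 * v (m + 1) + X * v (m + 2)
  map_add' u v := by
    funext m; cases m <;> simp <;> ring
  map_smul' c v := by
    funext m; cases m <;> simp <;> ring

/-- Jacobi operator with diagonal `2,2,2,...`. -/
noncomputable def opB : (ℕ → ℤ[X]) →ₗ[ℤ[X]] (ℕ → ℤ[X]) where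
  toFun v := fun m => match m with
    | 0 => 2 * v 0 + X * v 1
    | (m + 1) => v m + 2 * v (m + 1) + X * v (m + 2)
  map_add' u v := by
    funext m; cases m <;> simp <;> ring
  map_smul' c v := by
    funext m; cases m <;> simp <;> ring

/-- Intertwiner. -/
noncomputable def opZ : (ℕ → ℤ[X]) →ₗ[ℤ[X]] (ℕ → ℤ[X]) where
  toFun v := fun m => match m with
    | 0 => X * v 0
    | (m + 1) => X * v (m + 1) + v m
  map_add' u v := by
    funext m; cases m <;> simp <;> ring
  map_smul' c v := by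
    funext m; cases m <;> simp <;> ring

@[simp] theorem opA_zero (v : ℕ → ℤ[X]) : opA v 0 = v 0 + X * v 1 := rfl
@[simp] theorem opA_succ (v : ℕ → ℤ[X]) (m : ℕ) :
    opA v (m + 1) = v m + 2 * v (m + 1) + X * v (m + 2) := rfl
@[simp] theorem opB_zero (v : ℕ → ℤ[X]) : opB v 0 = 2 * v 0 + X * v 1 := rfl
@[simp] theorem opB_succ (v : ℕ → ℤ[X]) (m : ℕ) :
    opB v (m + 1) = v m + 2 * v (m + 1) + X * v (m + 2) := rfl
@[simp] theorem opZ_zero (v : ℕ → ℤ[X]) : opZ v 0 = X * v 0 := rfl
@[simp] theorem opZ_succ (v : ℕ → ℤ[X]) (m : ℕ) :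
    opZ v (m + 1) = X * v (m + 1) + v m := rfl

theorem intertwine (v : ℕ → ℤ[X]) : opA (opZ v) = opZ (opB v) := by
  funext m
  rcases m with _ | m
  · simp; ring
  · rcases m with _ | m
    · simp; ring
    · simp; ring

/-- The start vector. -/
noncomputable def e0 : ℕ → ℤ[X] := fun m => if m = 0 then 1 else 0

noncomputable def vecA (q : ℤ[X][X]) : ℕ → ℤ[X] := (aeval opA q) e0
noncomputable def vecB (q : ℤ[X][X]) : ℕ → ℤ[X] := (aeval opB q) e0

/-- The functional `T`. -/
noncomputable def T (q : ℤ[X][X]) : ℤ[X] := vecA q 0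
/-- The functional `Φ`. -/
noncomputable def Phi (q : ℤ[X][X]) : ℤ[X] := vecB q 0

theorem vecA_add (p q : ℤ[X][X]) : vecA (p + q) = vecA p + vecA q := by
  simp [vecA, map_add]
theorem vecB_add (p q : ℤ[X][X]) : vecB (p + q) = vecB p + vecB q := by
  simp [vecB, map_add]
theorem vecA_sub (p q : ℤ[X][X]) : vecA (p - q) = vecA p - vecA q := by
  simp [vecA, map_sub]
theorem vecB_sub (p q : ℤ[X][X]) : vecB (p - q) = vecB p - vecB q := by
  simp [vecB, map_sub]
theorem vecA_C_mul (c : ℤ[X]) (q : ℤ[X][X]) : vecA (C c * q) = c • vecA q := by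
  simp [vecA, map_mul, aeval_C]
theorem vecB_C_mul (c : ℤ[X]) (q : ℤ[X][X]) : vecB (C c * q) = c • vecB q := by
  simp [vecB, map_mul, aeval_C]
theorem vecA_X_mul (q : ℤ[X][X]) : vecA (X * q) = opA (vecA q) := by
  simp [vecA, map_mul, aeval_X]
theorem vecB_X_mul (q : ℤ[X][X]) : vecB (X * q) = opB (vecB q) := by
  simp [vecB, map_mul, aeval_X]
theorem vecA_one : vecA 1 = e0 := by simp [vecA]
theorem vecB_one : vecB 1 = e0 := by simp [vecB]

theorem T_add (p q : ℤ[X][X]) : T (p + q) = T p + T q := by simp [T, vecA_add]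
theorem T_sub (p q : ℤ[X][X]) : T (p - q) = T p - T q := by simp [T, vecA_sub]
theorem T_C_mul (c : ℤ[X]) (q : ℤ[X][X]) : T (C c * q) = c * T q := by simp [T, vecA_C_mul]
theorem T_zero : T 0 = 0 := by simp [T, vecA]
theorem Phi_add (p q : ℤ[X][X]) : Phi (p + q) = Phi p + Phi q := by simp [Phi, vecB_add]
theorem Phi_sub (p q : ℤ[X][X]) : Phi (p - q) = Phi p - Phi q := by simp [Phi, vecB_sub]
theorem Phi_C_mul (c : ℤ[X]) (q : ℤ[X][X]) : Phi (C c * q) = c * Phi q := by
  simp [Phi, vecB_C_mul]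

/-- `T` as a linear map. -/
noncomputable def Tl : ℤ[X][X] →ₗ[ℤ[X]] ℤ[X] where
  toFun := T
  map_add' := T_add
  map_smul' c q := by rw [smul_eq_C_mul, T_C_mul]; rfl

theorem Tl_apply (q : ℤ[X][X]) : Tl q = T q := rfl

/-- `w = x - 1`. -/
noncomputable def w : ℤ[X] := X - 1

/-- `Q = Y + w`. -/
noncomputable def Q : ℤ[X][X] := X + C w

/-- The polynomials `h_l`. -/
noncomputable def h : ℕ → ℤ[X][X]
  | 0 => 1
  | 1 => X
  | (n + 2) => X * h (n + 1) - Q * h n

theorem h_zero : h 0 = 1 := rfl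
theorem h_one : h 1 = X := rfl
theorem h_add_two (n : ℕ) : h (n + 2) = X * h (n + 1) - Q * h n := rfl

theorem X_mul_h_succ (n : ℕ) : X * h (n + 1) = h (n + 2) + Q * h n := by
  rw [h_add_two]; ring

theorem X_mul_h_zero : X * h 0 = h 1 := by rw [h_zero, h_one]; ring

theorem vecA_h (l : ℕ) : vecA (h l) = fun m => ((l.choose m : ℕ) : ℤ[X]) := by
  induction l using Nat.twoStepInduction with
  | zero =>
    rw [h_zero, vecA_one]; funext m
    cases m <;> simp [e0]
  | one =>
    rw [h_one, ← mul_one (X : ℤ[X][X]), vecA_X_mul, vecA_one]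
    funext m
    rcases m with _ | m
    · simp [e0]
    · rcases m with _ | m
      · simp [e0]
      · simp [e0, Nat.choose]
  | more n ih1 ih2 =>
    have e : h (n + 2) = X * h (n + 1) - (X * h n + C w * h n) := by
      rw [h_add_two, Q]; ring
    rw [e, vecA_sub, vecA_add, vecA_X_mul, vecA_X_mul, vecA_C_mul, ih1, ih2]
    funext m
    rcases m with _ | m
    · simp [w]; ring
    · simp only [Pi.sub_apply, Pi.add_apply, opA_succ, Pi.smul_apply, smul_eq_mul, w]
      have c1 : (n + 1 + 1).choose (m + 1) = (n + 1).choose m + (n + 1).choose (m + 1) :=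
        Nat.choose_succ_succ _ _
      have c2 : (n + 1).choose (m + 1) = n.choose m + n.choose (m + 1) := Nat.choose_succ_succ _ _
      have c3 : (n + 1).choose (m + 2) = n.choose (m + 1) + n.choose (m + 2) :=
        Nat.choose_succ_succ _ _
      have e1 : n + 2 = n + 1 + 1 := rfl
      rw [e1, c1, c3, c2]
      push_cast
      ring

theorem vecB_h (l : ℕ) : vecB (h l) = fun m => (((l + 1).choose (m + 1) : ℕ) : ℤ[X]) := by
  induction l using Nat.twoStepInduction with
  | zero =>
    rw [h_zero, vecB_one]; funext m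
    rcases m with _ | m
    · simp [e0]
    · rw [Nat.choose_eq_zero_of_lt (by omega)]; simp [e0]
  | one =>
    rw [h_one, ← mul_one (X : ℤ[X][X]), vecB_X_mul, vecB_one]
    funext m
    rcases m with _ | m
    · simp [e0]
    · rcases m with _ | m
      · simp [e0]
      · simp [e0, Nat.choose]
  | more n ih1 ih2 =>
    have e : h (n + 2) = X * h (n + 1) - (X * h n + C w * h n) := by
      rw [h_add_two, Q]; ring
    rw [e, vecB_sub, vecB_add, vecB_X_mul, vecB_X_mul, vecB_C_mul, ih1, ih2]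
    funext m
    have c2 : ∀ m, (n + 2).choose (m + 1) = (n + 1).choose m + (n + 1).choose (m + 1) :=
      fun m => Nat.choose_succ_succ _ _
    have c3 : ∀ m, (n + 3).choose (m + 1) = (n + 2).choose m + (n + 2).choose (m + 1) :=
      fun m => Nat.choose_succ_succ _ _
    rcases m with _ | m
    · simp only [Pi.sub_apply, Pi.add_apply, opB_zero, Pi.smul_apply, smul_eq_mul, w]
      rw [show n + 1 + 1 = n + 2 by rfl, show n + 2 + 1 = n + 3 by rfl, c3 0, c2 0, c2 (0 + 1)]
      push_cast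
      simp
      ring
    · simp only [Pi.sub_apply, Pi.add_apply, opB_succ, Pi.smul_apply, smul_eq_mul, w]
      rw [show n + 1 + 1 = n + 2 by rfl, show n + 2 + 1 = n + 3 by rfl, c3, c2 (m + 1), c2 m, c2 (m + 2)]
      push_cast
      ring

theorem T_h (l : ℕ) : T (h l) = 1 := by simp [T, vecA_h]

theorem Phi_h (l : ℕ) : Phi (h l) = ((l + 1 : ℕ) : ℤ[X]) := by simp [Phi, vecB_h]

theorem aeval_intertwine (q : ℤ[X][X]) (v : ℕ → ℤ[X]) :
    (aeval opA q) (opZ v) = opZ ((aeval opB q) v) := by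
  induction q using Polynomial.induction_on' with
  | add p q hp hq => simp [map_add, hp, hq]
  | monomial n a =>
    rw [aeval_monomial, aeval_monomial]
    simp only [Module.End.mul_apply, Module.algebraMap_end_apply]
    have : (opA ^ n) (opZ v) = opZ ((opB ^ n) v) := by
      induction n with
      | zero => simp
      | succ n ih => rw [pow_succ', pow_succ', Module.End.mul_apply, Module.End.mul_apply, ih, intertwine]
    rw [this, map_smul]

theorem opZ_e0 : opZ e0 = vecA Q := by
  rw [Q, vecA_add, show (X : ℤ[X][X]) = X * 1 by ring, vecA_X_mul, vecA_one,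
    show (C w : ℤ[X][X]) = C w * 1 by ring, vecA_C_mul, vecA_one]
  funext m
  rcases m with _ | m
  · simp [e0, w]
  · rcases m with _ | m
    · simp [e0]
    · simp [e0]

theorem T_mul_Q (q : ℤ[X][X]) : T (q * Q) = X * Phi q := by
  have : vecA (q * Q) = opZ (vecB q) := by
    rw [vecA, map_mul, Module.End.mul_apply]
    have e : (aeval opA Q) e0 = opZ e0 := by rw [opZ_e0]; rfl
    rw [e, aeval_intertwine]; rfl
  rw [T, this, opZ_zero]; rfl

end Pool.Agent.H62.Toric
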