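import Pool.Agent.H62.Toric.Alg1

namespace Pool.Agent.H62.Toric

open Polynomial

theorem coeff_w_mul_zero (p : ℤ[X]) : (w * p).coeff 0 = - p.coeff 0 := by
  rw [w, sub_mul, one_mul, coeff_sub]; simp

theorem coeff_w_mul_succ (p : ℤ[X]) (k : ℕ) : (w * p).coeff (k + 1) = p.coeff k - p.coeff (k + 1) := by
  rw [w, sub_mul, one_mul, coeff_sub]; simp

/-- explicit coefficients of `Φ(Q^b h_l)`. -/
def W (b l k : ℕ) : ℤ :=
  (b.choose k : ℤ) * ((b + l + 1).choose (k + 1)) - ((b + l + 1).choose k) * (b.choose (k + 1))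

theorem W_rec_zero (b k : ℕ) : W (b + 1) 0 (k + 1) =
    W b 1 (k + 1) + (W b 0 k - W b 0 (k + 1)) := by
  simp only [W, Nat.add_zero]
  have c1 : ∀ n m, (n + 1).choose (m + 1) = n.choose m + n.choose (m + 1) := Nat.choose_succ_succ
  simp only [show b + 1 + 1 = b + 1 + 1 from rfl, c1]
  push_cast
  ring

theorem W_rec_zero_zero (b : ℕ) : W (b + 1) 0 0 = W b 1 0 - W b 0 0 := by
  simp only [W, Nat.add_zero]
  simp
  ring

theorem W_rec_succ (b l k : ℕ) : W (b + 1) (l + 1) (k + 1) =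
    W b (l + 2) (k + 1) + W (b + 1) l (k + 1) + (W b (l + 1) k - W b (l + 1) (k + 1)) := by
  simp only [W]
  have c1 : ∀ n m, (n + 1).choose (m + 1) = n.choose m + n.choose (m + 1) := Nat.choose_succ_succ
  have e1 : b + 1 + (l + 1) + 1 = b + l + 1 + 1 + 1 := by ring
  have e2 : b + (l + 2) + 1 = b + l + 1 + 1 + 1 := by ring
  have e3 : b + 1 + l + 1 = b + l + 1 + 1 := by ring
  have e4 : b + (l + 1) + 1 = b + l + 1 + 1 := by ring
  rw [e1, e2, e3, e4]
  simp only [c1]
  push_cast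
  ring

theorem W_rec_succ_zero (b l : ℕ) : W (b + 1) (l + 1) 0 =
    W b (l + 2) 0 + W (b + 1) l 0 - W b (l + 1) 0 := by
  simp only [W]
  simp
  ring

theorem Phi_coeff (b : ℕ) : ∀ l k, (Phi (Q ^ b * h l)).coeff k = W b l k := by
  induction b with
  | zero =>
    intro l k
    rw [pow_zero, one_mul, Phi_h]
    rcases k with _ | k
    · simp [W]
    · rw [W, show ((l + 1 : ℕ) : ℤ[X]) = C ((l + 1 : ℕ) : ℤ) by simp, coeff_C_succ]
      simp
  | succ b ih =>
    intro l
    induction l with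
    | zero =>
      intro k
      have e : Q ^ (b + 1) * h 0 = Q ^ b * h 1 + C w * (Q ^ b * h 0) := by
        rw [h_zero, h_one, pow_succ]; nth_rw 2 [Q]; ring
      rw [e, Phi_add, Phi_C_mul, coeff_add, ih]
      rcases k with _ | k
      · rw [coeff_w_mul_zero, ih, W_rec_zero_zero]; ring
      · rw [coeff_w_mul_succ, ih, ih, W_rec_zero]
    | succ l ihl =>
      intro k
      have e : Q ^ (b + 1) * h (l + 1) =
          Q ^ b * h (l + 2) + Q ^ (b + 1) * h l + C w * (Q ^ b * h (l + 1)) := by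
        have h1 := X_mul_h_succ l
        calc Q ^ (b + 1) * h (l + 1) = Q ^ b * ((X + C w) * h (l + 1)) := by rw [pow_succ]; nth_rw 2 [Q]; ring
          _ = Q ^ b * (X * h (l + 1)) + C w * (Q ^ b * h (l + 1)) := by ring
          _ = Q ^ b * (h (l + 2) + Q * h l) + C w * (Q ^ b * h (l + 1)) := by rw [h1]
          _ = _ := by ring
      rw [e, Phi_add, Phi_add, Phi_C_mul, coeff_add, coeff_add, ih, ihl]
      rcases k with _ | k
      · rw [coeff_w_mul_zero, ih, W_rec_succ_zero]; ring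
      · rw [coeff_w_mul_succ, ih, ih, W_rec_succ]

theorem W_eq (b l k : ℕ) : ((k : ℤ) + 1) * W b l k =
    (l + 1) * (b.choose k) * ((b + l + 1).choose k) := by
  rw [W]
  rcases Nat.lt_or_ge b k with hlt | hge
  · rw [Nat.choose_eq_zero_of_lt hlt, Nat.choose_eq_zero_of_lt (show b < k + 1 by omega)]; simp
  · have h1 := Nat.choose_succ_right_eq b k
    have h2 := Nat.choose_succ_right_eq (b + l + 1) k
    have h1' : (b.choose (k + 1) : ℤ) * (k + 1) = b.choose k * ((b : ℤ) - k) := by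
      rw [← Nat.cast_sub hge]; exact_mod_cast h1
    have h2' : ((b + l + 1).choose (k + 1) : ℤ) * (k + 1) =
        (b + l + 1).choose k * ((b : ℤ) + l + 1 - k) := by
      have : (((b + l + 1 : ℕ) - k : ℕ) : ℤ) = (b : ℤ) + l + 1 - k := by
        rw [Nat.cast_sub (by omega)]; push_cast; ring
      rw [← this]; exact_mod_cast h2
    calc ((k : ℤ) + 1) * ((b.choose k : ℤ) * ((b + l + 1).choose (k + 1)) -
          ((b + l + 1).choose k) * (b.choose (k + 1)))
        = (b.choose k : ℤ) * (((b + l + 1).choose (k + 1) : ℤ) * (k + 1)) -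
          ((b + l + 1).choose k) * ((b.choose (k + 1) : ℤ) * (k + 1)) := by ring
      _ = _ := by rw [h1', h2']; ring

theorem W_nonneg (b l k : ℕ) : 0 ≤ W b l k := by
  have h1 := W_eq b l k
  have h2 : (0 : ℤ) ≤ (l + 1) * (b.choose k) * ((b + l + 1).choose k) := by positivity
  rw [← h1] at h2
  exact nonneg_of_mul_nonneg_right h2 (by positivity)

theorem W_zero (b l k : ℕ) (hk : b < k) : W b l k = 0 := by
  rw [W, Nat.choose_eq_zero_of_lt hk, Nat.choose_eq_zero_of_lt (show b < k + 1 by omega)]; simp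

theorem W_ratio (b l k : ℕ) : ((k : ℤ) + 1) * (k + 2) * W b l (k + 1) =
    ((b : ℤ) - k) * (b + l + 1 - k) * W b l k := by
  rcases Nat.lt_or_ge b k with hlt | hge
  · rw [W_zero _ _ _ hlt, W_zero _ _ _ (by omega)]; ring
  have h1 := W_eq b l k
  have h2 := W_eq b l (k + 1)
  have h3 := Nat.choose_succ_right_eq b k
  have h4 := Nat.choose_succ_right_eq (b + l + 1) k
  have h3' : (b.choose (k + 1) : ℤ) * (k + 1) = b.choose k * ((b : ℤ) - k) := by
    rw [← Nat.cast_sub hge]; exact_mod_cast h3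
  have h4' : ((b + l + 1).choose (k + 1) : ℤ) * (k + 1) =
      (b + l + 1).choose k * ((b : ℤ) + l + 1 - k) := by
    have : (((b + l + 1 : ℕ) - k : ℕ) : ℤ) = (b : ℤ) + l + 1 - k := by
      rw [Nat.cast_sub (by omega)]; push_cast; ring
    rw [← this]; exact_mod_cast h4
  have hk : ((k : ℤ) + 1) ≠ 0 := by positivity
  apply mul_left_cancel₀ hk
  push_cast at h2
  calc ((k : ℤ) + 1) * (((k : ℤ) + 1) * (k + 2) * W b l (k + 1))
      = ((k : ℤ) + 1) * (k + 1) * (((k : ℤ) + 1 + 1) * W b l (k + 1)) := by ring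
    _ = ((k : ℤ) + 1) * (k + 1) * ((l + 1) * (b.choose (k + 1)) * ((b + l + 1).choose (k + 1))) := by
        rw [h2]
    _ = (l + 1) * ((b.choose (k + 1) : ℤ) * (k + 1)) * (((b + l + 1).choose (k + 1) : ℤ) * (k + 1)) := by
        ring
    _ = (l + 1) * (b.choose k * ((b : ℤ) - k)) * ((b + l + 1).choose k * ((b : ℤ) + l + 1 - k)) := by
        rw [h3', h4']
    _ = ((b : ℤ) - k) * (b + l + 1 - k) * ((l + 1) * (b.choose k) * ((b + l + 1).choose k)) := by ring
    _ = ((b : ℤ) - k) * (b + l + 1 - k) * (((k : ℤ) + 1) * W b l k) := by rw [h1]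
    _ = _ := by ring

/-- Nonnegative coefficients, degree at most `n/2`, and the ratio bound. -/
def Good (n : ℕ) (p : ℤ[X]) : Prop :=
  (∀ i, 0 ≤ p.coeff i) ∧ (∀ i, n < 2 * i → p.coeff i = 0) ∧
    ∀ i : ℕ, 1 ≤ i → 4 * (i : ℤ) * (i + 1) * p.coeff (i + 1) ≤
      ((n : ℤ) - 2 * i) * ((n : ℤ) - 2 * i + 2) * p.coeff i

theorem Good.add {n : ℕ} {p q : ℤ[X]} (hp : Good n p) (hq : Good n q) : Good n (p + q) := by
  refine ⟨fun i => ?_, fun i hi => ?_, fun i hi => ?_⟩
  · rw [coeff_add]; exact add_nonneg (hp.1 i) (hq.1 i)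
  · rw [coeff_add, hp.2.1 i hi, hq.2.1 i hi, add_zero]
  · rw [coeff_add, coeff_add]
    have := hp.2.2 i hi
    have := hq.2.2 i hi
    linarith

theorem Good.smul {n : ℕ} {p : ℤ[X]} (hp : Good n p) {c : ℤ} (hc : 0 ≤ c) : Good n (C c * p) := by
  refine ⟨fun i => ?_, fun i hi => ?_, fun i hi => ?_⟩
  · rw [coeff_C_mul]; exact mul_nonneg hc (hp.1 i)
  · rw [coeff_C_mul, hp.2.1 i hi, mul_zero]
  · rw [coeff_C_mul, coeff_C_mul]
    have := mul_le_mul_of_nonneg_left (hp.2.2 i hi) hc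
    linarith

theorem good_zero (n : ℕ) : Good n 0 := by
  refine ⟨fun i => by simp, fun i hi => by simp, fun i hi => by simp⟩

theorem good_one (n : ℕ) : Good n 1 := by
  refine ⟨fun i => ?_, fun i hi => ?_, fun i hi => ?_⟩
  · rw [coeff_one]; split_ifs <;> simp
  · rw [coeff_one, if_neg (by omega)]
  · rw [coeff_one, coeff_one, if_neg (by omega), if_neg (by omega)]; simp

theorem good_XPhi (b l : ℕ) : Good (2 * (b + 1) + l) (X * Phi (Q ^ b * h l)) := by
  refine ⟨fun i => ?_, fun i hi => ?_, fun i hi => ?_⟩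
  · rcases i with _ | i
    · simp
    · rw [coeff_X_mul, Phi_coeff]; exact W_nonneg _ _ _
  · rcases i with _ | i
    · simp
    · rw [coeff_X_mul, Phi_coeff]
      rcases Nat.lt_or_ge b i with h1 | h1
      · exact W_zero _ _ _ h1
      · omega
  · rcases i with _ | i
    · omega
    · rw [coeff_X_mul, coeff_X_mul, Phi_coeff, Phi_coeff]
      rcases Nat.lt_or_ge b i with h1 | h1
      · rw [W_zero _ _ _ h1, W_zero _ _ _ (by omega)]; simp
      · have h2 := W_ratio b l i
        have h3 := W_nonneg b l i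
        push_cast
        have h4 : 4 * ((i : ℤ) + 1) * (i + 1 + 1) * W b l (i + 1) =
            4 * (((b : ℤ) - i) * (b + l + 1 - i) * W b l i) := by rw [← h2]; ring
        rw [h4]
        have h5 : 4 * (((b : ℤ) - i) * (b + l + 1 - i)) ≤
            (2 * ((b : ℤ) + 1) + l - 2 * (i + 1)) * (2 * ((b : ℤ) + 1) + l - 2 * (i + 1) + 2) := by
          have h6 : (0 : ℤ) ≤ (l : ℤ) := by positivity
          nlinarith
        calc 4 * (((b : ℤ) - i) * (b + l + 1 - i) * W b l i)
            = (4 * (((b : ℤ) - i) * (b + l + 1 - i))) * W b l i := by ring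
          _ ≤ _ := mul_le_mul_of_nonneg_right h5 h3

theorem good_base (b l : ℕ) : Good (2 * b + l) (T (Q ^ b * h l)) := by
  rcases b with _ | b
  · rw [pow_zero, one_mul, T_h]; exact good_one _
  · have : Q ^ (b + 1) * h l = (Q ^ b * h l) * Q := by rw [pow_succ]; ring
    rw [this, T_mul_Q]; exact good_XPhi b l

theorem good_T (a : ℕ) : ∀ b l, Good (a + 2 * b + l) (T (X ^ a * Q ^ b * h l)) := by
  induction a with
  | zero => intro b l; rw [pow_zero, one_mul, Nat.zero_add]; exact good_base b l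
  | succ a ih =>
    intro b l
    rcases l with _ | l
    · have e : X ^ (a + 1) * Q ^ b * h 0 = X ^ a * Q ^ b * h 1 := by
        rw [← X_mul_h_zero]; ring
      rw [e]
      have := ih b 1
      rw [show a + 1 + 2 * b + 0 = a + 2 * b + 1 by ring]; exact this
    · have e : X ^ (a + 1) * Q ^ b * h (l + 1) =
          X ^ a * Q ^ b * h (l + 2) + X ^ a * Q ^ (b + 1) * h l := by
        calc X ^ (a + 1) * Q ^ b * h (l + 1) = X ^ a * Q ^ b * (X * h (l + 1)) := by ring
          _ = X ^ a * Q ^ b * (h (l + 2) + Q * h l) := by rw [X_mul_h_succ]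
          _ = _ := by ring
      rw [e, T_add]
      have h1 := ih b (l + 2)
      have h2 := ih (b + 1) l
      rw [show a + 1 + 2 * b + (l + 1) = a + 2 * b + (l + 2) by ring]
      rw [show a + 2 * (b + 1) + l = a + 2 * b + (l + 2) by ring] at h2
      exact h1.add h2

theorem T_coeff_zero_Q (q : ℤ[X][X]) : (T (q * Q)).coeff 0 = 0 := by
  rw [T_mul_Q]; simp

theorem T_X_pow_coeff_zero (a : ℕ) : ∀ l, (T (X ^ a * h l)).coeff 0 = 1 := by
  induction a with
  | zero => intro l; rw [pow_zero, one_mul, T_h]; simp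
  | succ a ih =>
    intro l
    rcases l with _ | l
    · have e : X ^ (a + 1) * h 0 = X ^ a * h 1 := by
        rw [← X_mul_h_zero]; ring
      rw [e]; exact ih 1
    · have e : X ^ (a + 1) * h (l + 1) =
          X ^ a * h (l + 2) + (X ^ a * h l) * Q := by
        calc X ^ (a + 1) * h (l + 1) = X ^ a * (X * h (l + 1)) := by ring
          _ = X ^ a * (h (l + 2) + Q * h l) := by rw [X_mul_h_succ]
          _ = _ := by ring
      rw [e, T_add, coeff_add, ih, T_coeff_zero_Q, add_zero]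

end Pool.Agent.H62.Toric
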