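import Pool.Agent.H62.Toric.Defs

namespace Pool.Agent.H62.Toric

open Finset

/-- Existence of the greedy cascade. -/
theorem exists_cascade : ∀ (k a : ℕ), 1 ≤ k → 1 ≤ a →
    ∃ j c, IsCascade k a j c ∧ (c k).choose k ≤ a ∧ a < (c k + 1).choose k := by
  intro k
  induction k with
  | zero => intro a h; omega
  | succ k ih =>
    intro a _ ha
    -- greatest m with choose m (k+1) ≤ a
    have hex : ∃ m, (m.choose (k + 1) ≤ a ∧ a < (m + 1).choose (k + 1)) ∧ k + 1 ≤ m := by
      have hP : ∃ n : ℕ, a < n.choose (k + 1) := by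
        refine ⟨a + k + 1, ?_⟩
        have h1 : (a + k + 1).choose (k + 1) ≥ (a + 1).choose 1 := by
          clear ih ha
          induction k with
          | zero => simp
          | succ k ih2 =>
            have h3 : (a + (k + 1) + 1).choose (k + 1 + 1) =
              (a + k + 1).choose (k + 1) + (a + k + 1).choose (k + 1 + 1) := by
              rw [show a + (k + 1) + 1 = (a + k + 1) + 1 by ring, Nat.choose_succ_succ]
            omega
        simp at h1; omega
      classical
      let n := Nat.find hP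
      have hn : a < n.choose (k + 1) := Nat.find_spec hP
      have hn0 : n ≠ 0 := by
        intro h; rw [h] at hn; simp at hn
      obtain ⟨m, hm⟩ := Nat.exists_eq_succ_of_ne_zero hn0
      have hmin : m.choose (k + 1) ≤ a := by
        have := Nat.find_min hP (m := m) (by change m < n; omega)
        omega
      refine ⟨m, ⟨hmin, by rw [hm] at hn; exact hn⟩, ?_⟩
      by_contra hlt
      have : (m + 1).choose (k + 1) ≤ 1 := by
        have h2 : m + 1 ≤ k + 1 := by omega
        calc (m + 1).choose (k + 1) ≤ (k + 1).choose (k + 1) := Nat.choose_le_choose _ h2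
          _ = 1 := Nat.choose_self _
      rw [hm] at hn
      simp only [Nat.succ_eq_add_one] at hn
      omega
    obtain ⟨m, ⟨h1, h2⟩, h3⟩ := hex
    rcases Nat.eq_zero_or_pos k with hk | hk
    · subst hk
      refine ⟨1, fun _ => m, ⟨le_refl _, le_refl _, h3, ?_, ?_⟩, h1, h2⟩
      · intro i hi hi2; omega
      · simp at h1 h2 ⊢; omega
    rcases Nat.eq_or_lt_of_le h1 with he | hlt
    · refine ⟨k + 1, fun _ => m, ⟨by omega, le_refl _, h3, ?_, ?_⟩, h1, h2⟩
      · intro i hi hi2; omega
      · simp [he]
    · obtain ⟨j, c, ⟨hj1, hj2, hj3, hj4, hj5⟩, hc1, hc2⟩ := ih (a - m.choose (k + 1)) hk (by omega)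
      have hck : c k < m := by
        by_contra hge
        push Not at hge
        have h5 : m.choose k ≤ (c k).choose k := Nat.choose_le_choose _ hge
        rw [Nat.choose_succ_succ, Nat.succ_eq_add_one] at h2
        omega
      refine ⟨j, fun i => if i = k + 1 then m else c i, ⟨hj1, by omega, ?_, ?_, ?_⟩, ?_, ?_⟩
      · simp only; rw [if_neg (by omega)]; exact hj3
      · intro i hi1 hi2
        simp only
        rw [if_neg (by omega)]
        by_cases hik : i = k
        · subst hik; simp [hck]
        · rw [if_neg (by omega)]; exact hj4 i hi1 (by omega)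
      · rw [← Finset.insert_Icc_right_eq_Icc_add_one (by omega), Finset.sum_insert (by simp)]
        simp only [if_true]
        have : ∑ x ∈ Icc j k, (if x = k + 1 then m else c x).choose x = ∑ i ∈ Icc j k, (c i).choose i := by
          apply Finset.sum_congr rfl
          intro x hx
          rw [Finset.mem_Icc] at hx
          rw [if_neg (by omega)]
        rw [this, ← hj5]; omega
      · simp [h1]
      · simp [h2]

/-- Lower bound for the upper pseudo-power. -/
theorem leUpper_of_ratio {i g g' b : ℕ} (hi : 1 ≤ i) (hib : i ≤ b) (hg : b.choose i ≤ g)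
    (h : (i + 1) * (b + 1) * g' ≤ (b - i) * (b + 1 - i) * g) : LeUpper i g g' := by
  have hg1 : 1 ≤ g := le_trans (Nat.choose_pos hib) hg
  right
  obtain ⟨j, c, hc, h1, h2⟩ := exists_cascade i g hi hg1
  refine ⟨j, c, hc, ?_⟩
  obtain ⟨hj1, hj2, hj3, hj4, hj5⟩ := hc
  set m := c i with hm
  have hbm : b ≤ m := by
    by_contra hlt
    push Not at hlt
    have : (m + 1).choose i ≤ b.choose i := Nat.choose_le_choose _ hlt
    omega
  have hval : m.choose (i + 1) ≤ ∑ x ∈ Icc j i, (c x).choose (x + 1) := by
    have : (c i).choose (i + 1) ≤ ∑ x ∈ Icc j i, (c x).choose (x + 1) :=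
      Finset.single_le_sum (f := fun x => (c x).choose (x + 1)) (fun _ _ => Nat.zero_le _)
        (Finset.mem_Icc.mpr ⟨hj2, le_refl _⟩)
    exact this
  refine le_trans ?_ hval
  -- g' ≤ choose m (i+1)
  have e1 : m.choose (i + 1) * (i + 1) = m.choose i * (m - i) := Nat.choose_succ_right_eq m i
  have e2 : (m + 1).choose i * (m + 1 - i) = (m + 1) * m.choose i := by
    have := Nat.choose_mul_succ_eq m i
    rw [this.symm]; ring
  obtain ⟨u, rfl⟩ := Nat.exists_eq_add_of_le hib
  obtain ⟨t, ht⟩ := Nat.exists_eq_add_of_le hbm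
  have a1 : i + u - i = u := by omega
  have a2 : i + u + 1 - i = u + 1 := by omega
  rw [a1, a2] at h
  have a3 : m - i = u + t := by omega
  have a4 : m + 1 - i = u + t + 1 := by omega
  rw [a3] at e1
  rw [a4] at e2
  -- monotonicity: u (u+1) (m+1) ≤ (u+t)(u+t+1)(b+1)
  have hmono : u * (u + 1) * (m + 1) ≤ (u + t) * (u + t + 1) * (i + u + 1) := by
    rw [ht]
    nlinarith [Nat.zero_le (u * t), Nat.zero_le (t * t), Nat.zero_le (i * t), Nat.zero_le (u*u*t), Nat.zero_le (u*t*t), Nat.zero_le (i*u*t), Nat.zero_le (i*t*t)]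
  -- combine
  have hg2 : g ≤ (m + 1).choose i := by omega
  have key : (i + 1) * (i + u + 1) * g' * (m + 1) ≤
      (i + 1) * (i + u + 1) * m.choose (i + 1) * (m + 1) := by
    calc (i + 1) * (i + u + 1) * g' * (m + 1) ≤ u * (u + 1) * g * (m + 1) :=
          Nat.mul_le_mul_right _ h
      _ = (u * (u + 1) * (m + 1)) * g := by ring
      _ ≤ ((u + t) * (u + t + 1) * (i + u + 1)) * (m + 1).choose i := Nat.mul_le_mul hmono hg2
      _ = (u + t) * (i + u + 1) * ((m + 1).choose i * (u + t + 1)) := by ring
      _ = (u + t) * (i + u + 1) * ((m + 1) * m.choose i) := by rw [e2]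
      _ = (i + u + 1) * (m + 1) * (m.choose i * (u + t)) := by ring
      _ = (i + u + 1) * (m + 1) * (m.choose (i + 1) * (i + 1)) := by rw [e1]
      _ = (i + 1) * (i + u + 1) * m.choose (i + 1) * (m + 1) := by ring
  have k2 := Nat.le_of_mul_le_mul_right key (Nat.succ_pos m)
  exact Nat.le_of_mul_le_mul_left k2 (by positivity)

end Pool.Agent.H62.Toric
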