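import Mathlib

namespace Pool.Agent.H62.Toric

open Finset Nat

theorem two_pow_ge_aux (T : ℕ) : T * T + T + 2 ≤ 2 * 2 ^ T := by
  induction T with
  | zero => norm_num
  | succ n ih =>
    rcases Nat.lt_or_ge n 2 with h | h
    · interval_cases n <;> norm_num
    · rw [pow_succ]; nlinarith

theorem two_pow_ge_aux2 (T : ℕ) (hT : 3 ≤ T) : T * T + 6 * T + 4 ≤ 4 * 2 ^ T := by
  induction T, hT using Nat.le_induction with
  | base => norm_num
  | succ n hn ih => rw [pow_succ]; nlinarith

theorem asc_ge_aux (T k : ℕ) (hT : 1 ≤ T) (hk : 1 ≤ k) :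
    k ! * (T + k) ≤ ∏ j ∈ range k, (T + 1 + j) := by
  induction k, hk using Nat.le_induction with
  | base => simp
  | succ n hn ih =>
    rw [Finset.prod_range_succ, Nat.factorial_succ]
    have h1 : (n + 1) * n ! ≤ ∏ j ∈ range n, (T + 1 + j) := by
      refine le_trans ?_ ih
      rw [mul_comm]
      exact Nat.mul_le_mul_left _ (by omega)
    calc (n + 1) * n ! * (T + (n + 1)) ≤ (∏ j ∈ range n, (T + 1 + j)) * (T + (n + 1)) :=
          Nat.mul_le_mul_right _ h1
      _ = (∏ j ∈ range n, (T + 1 + j)) * (T + 1 + n) := by ring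

theorem fact_split (T k : ℕ) :
    (T + 2 * k)! = T ! * (∏ j ∈ range k, (T + 2 * k - j)) * ∏ j ∈ range k, (T + 1 + j) := by
  have h1 : (T + 2 * k - k)! * (T + 2 * k).descFactorial k = (T + 2 * k)! :=
    Nat.factorial_mul_descFactorial (by omega)
  have h2 : T + 2 * k - k = T + k := by omega
  rw [h2] at h1
  have h3 : T ! * (T + 1).ascFactorial k = (T + k)! := Nat.factorial_mul_ascFactorial T k
  rw [← h1, ← h3, Nat.descFactorial_eq_prod_range, Nat.ascFactorial_eq_prod_range]
  ring

theorem choose_fact (b k : ℕ) :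
    b.choose (k + 1) * (k + 1)! = b * ∏ j ∈ range k, (b - 1 - j) := by
  rw [mul_comm, ← Nat.descFactorial_eq_factorial_mul_choose, Nat.descFactorial_eq_prod_range,
    Finset.prod_range_succ']
  simp only [Nat.sub_zero]
  rw [mul_comm]
  congr 1
  apply Finset.prod_congr rfl
  intro j _
  omega

theorem exists_b (k T : ℕ) (hT : 2 ≤ T) : ∃ b, k + 1 ≤ b ∧
    b.choose (k + 1) * (k + 1)! * k ! * T ! ≤ 2 ^ T * (T + 2 * k)! ∧
    (b + 1) * (T * (T + 2)) ≤ 4 * (k + 1) * ((b - (k + 1)) * (b + 1 - (k + 1))) := by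
  rcases Nat.eq_zero_or_pos k with hk | hk
  · subst hk
    refine ⟨2 ^ T, Nat.one_le_two_pow, by simp, ?_⟩
    have h := two_pow_ge_aux T
    obtain ⟨c, hc⟩ : ∃ c, 2 ^ T = c + 1 := ⟨2 ^ T - 1, by have := Nat.one_le_two_pow (n := T); omega⟩
    rw [hc] at h ⊢
    simp only [Nat.zero_add, Nat.add_sub_cancel, mul_one]
    nlinarith
  · -- k ≥ 1
    obtain ⟨w, hw1, hw2⟩ : ∃ w, T * (T + 2) ≤ 2 * (k + 1) * w ∧
        2 * (k + 1) * w ≤ T * (T + 2) + 2 * k + 1 := by
      refine ⟨(T * (T + 2) + 2 * k + 1) / (2 * (k + 1)), ?_, ?_⟩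
      · have := Nat.div_add_mod (T * (T + 2) + 2 * k + 1) (2 * (k + 1))
        have h2 := Nat.mod_lt (T * (T + 2) + 2 * k + 1) (show 2 * (k + 1) > 0 by omega)
        omega
      · exact Nat.mul_div_le _ _
    refine ⟨2 * k + 1 + w, by omega, ?_, ?_⟩
    · rw [choose_fact, fact_split]
      have e1 : ∀ j, 2 * k + 1 + w - 1 - j = 2 * k + w - j := by intro j; omega
      simp only [e1]
      rcases Nat.lt_or_ge T w with hlt | hge
      · -- w > T
        have hT3 : 3 ≤ T ∧ 2 * k + 1 ≤ T := by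
          constructor <;> nlinarith
        have hb : 2 * k + 1 + w ≤ 2 ^ T := by
          have := two_pow_ge_aux2 T hT3.1
          nlinarith
        have hterm : (∏ j ∈ range k, (2 * k + w - j)) * k ! ≤
            (∏ j ∈ range k, (T + 2 * k - j)) * ∏ j ∈ range k, (T + 1 + j) := by
          rw [← Finset.prod_range_add_one_eq_factorial, ← Finset.prod_mul_distrib,
            ← Finset.prod_mul_distrib]
          apply Finset.prod_le_prod
          · intro _ _; positivity
          · intro j hj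
            rw [Finset.mem_range] at hj
            obtain ⟨t, ht⟩ : ∃ t, 2 * k = j + t := ⟨2 * k - j, by omega⟩
            have a1 : 2 * k + w - j = t + w := by omega
            have a2 : T + 2 * k - j = T + t := by omega
            rw [a1, a2]
            have h5 : (j + 1) * w ≤ (k + 1) * w := Nat.mul_le_mul_right _ (by omega)
            nlinarith
        calc (2 * k + 1 + w) * (∏ j ∈ range k, (2 * k + w - j)) * k ! * T !
            = (2 * k + 1 + w) * ((∏ j ∈ range k, (2 * k + w - j)) * k !) * T ! := by ring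
          _ ≤ 2 ^ T * ((∏ j ∈ range k, (T + 2 * k - j)) * ∏ j ∈ range k, (T + 1 + j)) * T ! :=
              Nat.mul_le_mul_right _ (Nat.mul_le_mul hb hterm)
          _ = _ := by ring
      · have h1 : ∏ j ∈ range k, (2 * k + w - j) ≤ ∏ j ∈ range k, (T + 2 * k - j) := by
          apply Finset.prod_le_prod
          · intro _ _; positivity
          · intro j _; omega
        have h2 : (2 * k + 1 + w) * k ! ≤ 2 ^ T * ∏ j ∈ range k, (T + 1 + j) := by
          have h3 := asc_ge_aux T k (by omega) hk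
          have h4 : (4 : ℕ) ≤ 2 ^ T := by
            calc (4 : ℕ) = 2 ^ 2 := by norm_num
              _ ≤ 2 ^ T := Nat.pow_le_pow_right (by norm_num) hT
          calc (2 * k + 1 + w) * k ! ≤ (4 * (T + k)) * k ! := Nat.mul_le_mul_right _ (by omega)
            _ = 4 * (k ! * (T + k)) := by ring
            _ ≤ 2 ^ T * ∏ j ∈ range k, (T + 1 + j) := Nat.mul_le_mul h4 h3
        calc (2 * k + 1 + w) * (∏ j ∈ range k, (2 * k + w - j)) * k ! * T !
            = ((2 * k + 1 + w) * k !) * (∏ j ∈ range k, (2 * k + w - j)) * T ! := by ring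
          _ ≤ (2 ^ T * ∏ j ∈ range k, (T + 1 + j)) * (∏ j ∈ range k, (T + 2 * k - j)) * T ! :=
              Nat.mul_le_mul_right _ (Nat.mul_le_mul h2 h1)
          _ = _ := by ring
    · have a1 : 2 * k + 1 + w - (k + 1) = k + w := by omega
      have a2 : 2 * k + 1 + w + 1 - (k + 1) = k + w + 1 := by omega
      rw [a1, a2]
      calc (2 * k + 1 + w + 1) * (T * (T + 2)) ≤ (2 * k + 1 + w + 1) * (2 * (k + 1) * w) :=
            Nat.mul_le_mul_left _ hw1
        _ = 2 * (k + 1) * ((2 * k + 1 + w + 1) * w) := by ring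
        _ ≤ 2 * (k + 1) * (2 * ((k + w) * (k + w + 1))) :=
            Nat.mul_le_mul_left _ (by nlinarith)
        _ = 4 * (k + 1) * ((k + w) * (k + w + 1)) := by ring

end Pool.Agent.H62.Toric
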