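import Pool.Agent.H62.Toric.Alg2
import Pool.Agent.H62.Toric.Kk
import Pool.Agent.H62.Toric.Num

namespace Pool.Agent.H62.Toric

open Polynomial

/-- ballot numbers -/
def beta (m : ℕ) : ℕ → ℤ
  | 0 => 1
  | (k + 1) => ((m + 2 * k + 2).choose (k + 1) : ℤ) - ((m + 2 * k + 2).choose k)

theorem beta_zero (m : ℕ) : beta m 0 = 1 := rfl
theorem beta_succ (m k : ℕ) :
    beta m (k + 1) = ((m + 2 * k + 2).choose (k + 1) : ℤ) - ((m + 2 * k + 2).choose k) := rfl

theorem beta_rec (m k : ℕ) : beta (m + 1) (k + 1) = beta m (k + 1) + beta (m + 2) k := by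
  have c1 : ∀ n m, (n + 1).choose (m + 1) = n.choose m + n.choose (m + 1) := Nat.choose_succ_succ
  rcases k with _ | k
  · simp [beta]
    ring
  · rw [beta_succ, beta_succ, beta_succ]
    rw [show m + 1 + 2 * (k + 1) + 2 = m + 2 * k + 4 + 1 by ring,
      show m + 2 * (k + 1) + 2 = m + 2 * k + 4 by ring,
      show m + 2 + 2 * k + 2 = m + 2 * k + 4 by ring, c1 (m + 2 * k + 4) (k + 1),
      c1 (m + 2 * k + 4) k]
    push_cast; ring

theorem beta_rec_zero (k : ℕ) : beta 0 (k + 1) = beta 1 k := by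
  have c1 : ∀ n m, (n + 1).choose (m + 1) = n.choose m + n.choose (m + 1) := Nat.choose_succ_succ
  rcases k with _ | k
  · simp [beta]
  · rw [beta_succ, beta_succ]
    rw [show 0 + 2 * (k + 1) + 2 = 2 * k + 3 + 1 by ring, show 1 + 2 * k + 2 = 2 * k + 3 by ring,
      c1 (2 * k + 3) (k + 1), c1 (2 * k + 3) k]
    have hs : (2 * k + 3).choose (k + 1 + 1) = (2 * k + 3).choose (k + 1) := by
      rw [← Nat.choose_symm (show k + 1 ≤ 2 * k + 3 by omega)]
      congr 1; omega
    rw [hs]
    push_cast; ring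

theorem pow_choose_rec (n s : ℕ) : ((n + 1).choose (s + 1) : ℤ) * 2 ^ (n + 1 - (s + 1)) =
    2 * ((n.choose (s + 1) : ℤ) * 2 ^ (n - (s + 1))) + (n.choose s : ℤ) * 2 ^ (n - s) := by
  rw [Nat.choose_succ_succ, Nat.succ_eq_add_one, show n + 1 - (s + 1) = n - s by omega]
  rcases Nat.lt_or_ge n (s + 1) with h1 | h1
  · rw [Nat.choose_eq_zero_of_lt h1]; push_cast; ring
  · rw [show n - s = n - (s + 1) + 1 by omega, pow_succ]; push_cast; ring

theorem vecB_pow_coeff (n : ℕ) : ∀ m k, (vecB (X ^ n) m).coeff k =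
    (n.choose (m + 2 * k) : ℤ) * 2 ^ (n - (m + 2 * k)) * beta m k := by
  induction n with
  | zero =>
    intro m k
    rw [pow_zero, vecB_one, e0]
    rcases m with _ | m
    · rcases k with _ | k
      · simp [beta]
      · rw [Nat.choose_eq_zero_of_lt (by omega)]; simp [coeff_one]
    · rw [Nat.choose_eq_zero_of_lt (by omega)]; simp
  | succ n ih =>
    intro m k
    rw [pow_succ', vecB_X_mul]
    rcases m with _ | m
    · rw [opB_zero, coeff_add, show (2 : ℤ[X]) = C 2 by simp, coeff_C_mul, ih]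
      rcases k with _ | k
      · simp [beta, pow_succ]; ring
      · rw [coeff_X_mul, ih, beta_rec_zero, show 0 + 2 * (k + 1) = (1 + 2 * k) + 1 by ring,
          pow_choose_rec]
        ring
    · rw [opB_succ, coeff_add, coeff_add, show (2 : ℤ[X]) = C 2 by simp, coeff_C_mul, ih, ih]
      rcases k with _ | k
      · rw [beta_zero, beta_zero, show m + 1 + 2 * 0 = m + 1 by ring, show m + 2 * 0 = m by ring,
          pow_choose_rec]
        simp
        ring
      · rw [coeff_X_mul, ih, beta_rec, show m + 1 + 2 * (k + 1) = (m + 2 * (k + 1)) + 1 by ring,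
          pow_choose_rec, show m + 2 + 2 * k = m + 2 * (k + 1) by ring]
        ring

theorem Phi_pow_coeff (n k : ℕ) : (Phi (X ^ n)).coeff k =
    (n.choose (2 * k) : ℤ) * 2 ^ (n - 2 * k) * beta 0 k := by
  rw [Phi, vecB_pow_coeff, Nat.zero_add]

theorem beta_zero_eq (k : ℕ) : beta 0 k * (k.factorial : ℤ) * ((k + 1).factorial : ℤ) =
    ((2 * k).factorial : ℤ) := by
  rcases k with _ | k
  · simp [beta]
  · rw [beta_succ, Nat.zero_add]
    have h1 : (2 * k + 2).choose (k + 1) * (k + 1) = (2 * k + 2).choose k * (k + 2) := by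
      rw [Nat.choose_succ_right_eq]; congr 1; omega
    have h2 : (2 * k + 2).choose (k + 1) * (k + 1).factorial * (k + 1).factorial =
        (2 * k + 2).factorial := by
      have := Nat.choose_mul_factorial_mul_factorial (show k + 1 ≤ 2 * k + 2 by omega)
      rw [show 2 * k + 2 - (k + 1) = k + 1 by omega] at this
      exact this
    have h1' : ((2 * k + 2).choose (k + 1) : ℤ) * (k + 1) = (2 * k + 2).choose k * (k + 2) := by
      exact_mod_cast h1
    have h2' : ((2 * k + 2).choose (k + 1) : ℤ) * (k + 1).factorial * (k + 1).factorial =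
        (2 * k + 2).factorial := by exact_mod_cast h2
    rw [show 2 * (k + 1) = 2 * k + 2 by ring, ← h2', Nat.factorial_succ (k + 1)]
    push_cast
    have h3 : (((2 * k + 2).choose (k + 1) : ℤ) - ((2 * k + 2).choose k)) * (k + 2) =
        (2 * k + 2).choose (k + 1) := by
      linear_combination h1'
    calc (((2 * k + 2).choose (k + 1) : ℤ) - ((2 * k + 2).choose k)) * ((k + 1).factorial : ℤ) *
          (((k : ℤ) + 1 + 1) * ((k + 1).factorial : ℤ))
        = ((((2 * k + 2).choose (k + 1) : ℤ) - ((2 * k + 2).choose k)) * (k + 2)) *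
          ((k + 1).factorial : ℤ) * ((k + 1).factorial : ℤ) := by ring
      _ = _ := by rw [h3]

theorem T_X_pow_ge (n k : ℕ) : (n.choose (2 * k) : ℤ) * 2 ^ (n - 2 * k) * beta 0 k ≤
    (T (X ^ (n + 2))).coeff (k + 1) := by
  have e : (X : ℤ[X][X]) ^ (n + 2) = X ^ n * Q ^ 0 * h 2 + X ^ n * Q := by
    have h1 := X_mul_h_succ 0
    rw [h_zero, h_one] at h1
    calc (X : ℤ[X][X]) ^ (n + 2) = X ^ n * (X * X) := by ring
      _ = X ^ n * (h 2 + Q * 1) := by rw [h1]
      _ = _ := by ring
  rw [e, T_add, coeff_add, T_mul_Q, coeff_X_mul, Phi_pow_coeff]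
  have := (good_T n 0 2).1 (k + 1)
  linarith

/-- the numerical heart: a polynomial with the ratio bound and the lower bound satisfies the
Kruskal-Katona inequality. -/
theorem leUpper_of_good {d : ℕ} {p : ℤ[X]} (hp : Good d p) (k : ℕ) (hk : 2 * (k + 2) ≤ d)
    (hlow : (T (X ^ d)).coeff (k + 1) ≤ p.coeff (k + 1)) :
    LeUpper (k + 1) (p.coeff (k + 1)).toNat (p.coeff (k + 1 + 1)).toNat := by
  obtain ⟨t, ht⟩ : ∃ t, d = 2 * (k + 1) + t := ⟨d - 2 * (k + 1), by omega⟩
  have ht2 : 2 ≤ t := by omega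
  obtain ⟨b, hb1, hb2, hb3⟩ := exists_b k t ht2
  have hnn1 := hp.1 (k + 1)
  have hnn2 := hp.1 (k + 1 + 1)
  obtain ⟨g, hg⟩ := Int.eq_ofNat_of_zero_le hnn1
  obtain ⟨g', hg'⟩ := Int.eq_ofNat_of_zero_le hnn2
  rw [hg, hg', Int.toNat_natCast, Int.toNat_natCast]
  -- lower bound
  have hlb := T_X_pow_ge (t + 2 * k) k
  rw [show t + 2 * k + 2 = d by omega, show t + 2 * k - 2 * k = t by omega] at hlb
  have hb4 : b.choose (k + 1) ≤ g := by
    have h1 : ((t + 2 * k).choose (2 * k) : ℤ) * 2 ^ t * beta 0 k ≤ (g : ℤ) := by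
      rw [← hg]; exact le_trans hlb hlow
    have h2 : (((t + 2 * k).choose (2 * k) : ℤ) * 2 ^ t * beta 0 k) *
        ((k + 1).factorial * k.factorial * t.factorial) = 2 ^ t * (t + 2 * k).factorial := by
      have h3 := beta_zero_eq k
      have h4 : (t + 2 * k).choose (2 * k) * (2 * k).factorial * t.factorial =
          (t + 2 * k).factorial := by
        have := Nat.choose_mul_factorial_mul_factorial (show 2 * k ≤ t + 2 * k by omega)
        rw [show t + 2 * k - 2 * k = t by omega] at this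
        exact this
      have h4' : ((t + 2 * k).choose (2 * k) : ℤ) * (2 * k).factorial * t.factorial =
          (t + 2 * k).factorial := by exact_mod_cast h4
      calc (((t + 2 * k).choose (2 * k) : ℤ) * 2 ^ t * beta 0 k) *
            ((k + 1).factorial * k.factorial * t.factorial)
          = 2 ^ t * ((t + 2 * k).choose (2 * k) *
            (beta 0 k * k.factorial * (k + 1).factorial) * t.factorial) := by ring
        _ = _ := by rw [h3, h4']
    have h5 : ((b.choose (k + 1) : ℤ)) * ((k + 1).factorial * k.factorial * t.factorial) ≤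
        (g : ℤ) * ((k + 1).factorial * k.factorial * t.factorial) := by
      have h6 : ((b.choose (k + 1) : ℤ)) * ((k + 1).factorial * k.factorial * t.factorial) ≤
          2 ^ t * (t + 2 * k).factorial := by
        have : ((b.choose (k + 1) * (k + 1).factorial * k.factorial * t.factorial : ℕ) : ℤ) ≤
            ((2 ^ t * (t + 2 * k).factorial : ℕ) : ℤ) := by exact_mod_cast hb2
        push_cast at this
        calc _ = _ := by ring
          _ ≤ _ := this
      rw [← h2] at h6
      exact le_trans h6 (mul_le_mul_of_nonneg_right h1 (by positivity))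
    have h7 : ((b.choose (k + 1) : ℤ)) ≤ (g : ℤ) :=
      le_of_mul_le_mul_right h5 (by positivity)
    exact_mod_cast h7
  -- ratio bound
  apply leUpper_of_ratio (b := b) (by omega) hb1 hb4
  have hr := hp.2.2 (k + 1) (by omega)
  rw [hg, hg', ht] at hr
  push_cast at hr
  have hr2 : 4 * (k + 1) * (k + 1 + 1) * g' ≤ t * (t + 2) * g := by
    have e : ((2 * ((k : ℤ) + 1) + t) - 2 * (k + 1)) * ((2 * ((k : ℤ) + 1) + t) - 2 * (k + 1) + 2) =
        t * (t + 2) := by ring
    rw [e] at hr
    exact_mod_cast hr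
  have h8 : 4 * (k + 1) * ((k + 1 + 1) * (b + 1) * g') ≤
      4 * (k + 1) * ((b - (k + 1)) * (b + 1 - (k + 1)) * g) := by
    calc 4 * (k + 1) * ((k + 1 + 1) * (b + 1) * g')
        = (b + 1) * (4 * (k + 1) * (k + 1 + 1) * g') := by ring
      _ ≤ (b + 1) * (t * (t + 2) * g) := Nat.mul_le_mul_left _ hr2
      _ = ((b + 1) * (t * (t + 2))) * g := by ring
      _ ≤ (4 * (k + 1) * ((b - (k + 1)) * (b + 1 - (k + 1)))) * g := Nat.mul_le_mul_right _ hb3
      _ = _ := by ring
  exact Nat.le_of_mul_le_mul_left h8 (by positivity)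

end Pool.Agent.H62.Toric
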