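import Pool.Agent.H62.Toric.Alg2

namespace Pool.Agent.H62.Toric

open Polynomial

/-- `Y + 2w` -/
noncomputable def Yp : ℤ[X][X] := X + C (2 * w)
/-- `x (Y + w)` -/
noncomputable def Qp : ℤ[X][X] := C X * Q

theorem Yp_def : Yp = X + 2 * C w := by
  rw [Yp, C_mul, map_ofNat]

noncomputable def hp : ℕ → ℤ[X][X]
  | 0 => 1
  | 1 => Yp
  | (n + 2) => Yp * hp (n + 1) - Qp * hp n

theorem hp_zero : hp 0 = 1 := rfl
theorem hp_one : hp 1 = Yp := rfl
theorem hp_add_two (n : ℕ) : hp (n + 2) = Yp * hp (n + 1) - Qp * hp n := rfl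

theorem one_add_w : (1 : ℤ[X]) + w = X := by rw [w]; ring

/-- companion matrix -/
noncomputable def Mm : Matrix (Fin 2) (Fin 2) ℤ[X][X] := !![X, -Q; 1, 0]

theorem Mm_sq : Mm * Mm = (X : ℤ[X][X]) • Mm - Q • (1 : Matrix (Fin 2) (Fin 2) ℤ[X][X]) := by
  rw [Mm]
  apply Matrix.ext
  intro i j
  fin_cases i <;> fin_cases j <;> simp [Matrix.mul_apply, Fin.sum_univ_two] <;> ring

noncomputable def Nm : Matrix (Fin 2) (Fin 2) ℤ[X][X] := Mm + (C w : ℤ[X][X]) • 1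

theorem Nm_sq : Nm * Nm = Yp • Nm - Qp • (1 : Matrix (Fin 2) (Fin 2) ℤ[X][X]) := by
  have hx : (C (X : ℤ[X]) : ℤ[X][X]) = 1 + C w := by rw [← one_add_w]; simp
  rw [Nm, Yp_def, Qp, hx, Mm, Q]
  generalize (C w : ℤ[X][X]) = c
  apply Matrix.ext
  intro i j
  fin_cases i <;> fin_cases j <;>
    simp [Matrix.mul_apply, Fin.sum_univ_two, Matrix.one_apply] <;> ring

theorem Mm_pow_entry (n : ℕ) : (Mm ^ (n + 1)) 1 0 = h n := by
  have key : ∀ n, (Mm ^ (n + 2)) = (X : ℤ[X][X]) • Mm ^ (n + 1) - Q • Mm ^ n := by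
    intro n
    rw [show n + 2 = n + 1 + 1 by ring, pow_succ (n := n + 1), pow_succ (n := n), mul_assoc, Mm_sq, mul_sub, Matrix.mul_smul,
      Matrix.mul_smul, mul_one]
  induction n using Nat.twoStepInduction with
  | zero => simp [Mm, h_zero]
  | one =>
    rw [key 0]; simp [Mm, h_one, Matrix.one_apply]
  | more n ih1 ih2 =>
    rw [show n + 2 + 1 = (n + 1) + 2 by ring, key (n + 1), h_add_two]
    simp only [Matrix.sub_apply, Matrix.smul_apply, smul_eq_mul]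
    rw [ih1, ih2]

theorem Nm_pow_entry (n : ℕ) : (Nm ^ (n + 1)) 1 0 = hp n := by
  have key : ∀ n, (Nm ^ (n + 2)) = Yp • Nm ^ (n + 1) - Qp • Nm ^ n := by
    intro n
    rw [show n + 2 = n + 1 + 1 by ring, pow_succ (n := n + 1), pow_succ (n := n), mul_assoc, Nm_sq, mul_sub, Matrix.mul_smul,
      Matrix.mul_smul, mul_one]
  induction n using Nat.twoStepInduction with
  | zero => simp [Nm, Mm, hp_zero, Matrix.one_apply]
  | one =>
    rw [key 0]; simp [Nm, Mm, hp_one, Matrix.one_apply]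
  | more n ih1 ih2 =>
    rw [show n + 2 + 1 = (n + 1) + 2 by ring, key (n + 1), hp_add_two]
    simp only [Matrix.sub_apply, Matrix.smul_apply, smul_eq_mul]
    rw [ih1, ih2]

theorem hp_eq (l : ℕ) : hp l = ∑ m ∈ Finset.range (l + 1),
    C (w ^ (l - m) * (((l + 1).choose (m + 1) : ℕ) : ℤ[X])) * h m := by
  have hcomm : Commute Mm ((C w : ℤ[X][X]) • (1 : Matrix (Fin 2) (Fin 2) ℤ[X][X])) := by
    rw [Commute, SemiconjBy, Matrix.mul_smul, Matrix.smul_mul, mul_one, one_mul]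
  have h1 := hcomm.add_pow (l + 1)
  have h2 : (Nm ^ (l + 1)) 1 0 = ∑ m ∈ Finset.range (l + 1 + 1),
      (Mm ^ m * ((C w : ℤ[X][X]) • (1 : Matrix (Fin 2) (Fin 2) ℤ[X][X])) ^ (l + 1 - m) *
        (((l + 1).choose m : ℕ) : Matrix (Fin 2) (Fin 2) ℤ[X][X])) 1 0 := by
    rw [Nm, h1, Matrix.sum_apply]
  rw [Nm_pow_entry] at h2
  rw [h2, Finset.sum_range_succ']
  have h0 : (Mm ^ 0 * ((C w : ℤ[X][X]) • (1 : Matrix (Fin 2) (Fin 2) ℤ[X][X])) ^ (l + 1 - 0) *
        (((l + 1).choose 0 : ℕ) : Matrix (Fin 2) (Fin 2) ℤ[X][X])) 1 0 = 0 := by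
    rw [_root_.smul_pow, one_pow]; simp
  rw [h0, add_zero]
  apply Finset.sum_congr rfl
  intro m _
  have e1 : (Mm ^ (m + 1) * ((C w : ℤ[X][X]) • (1 : Matrix (Fin 2) (Fin 2) ℤ[X][X])) ^ (l + 1 - (m + 1)) *
        (((l + 1).choose (m + 1) : ℕ) : Matrix (Fin 2) (Fin 2) ℤ[X][X])) =
      ((((l + 1).choose (m + 1) : ℕ) : ℤ[X][X]) * (C w) ^ (l - m)) • Mm ^ (m + 1) := by
    rw [_root_.smul_pow, one_pow, Matrix.mul_smul, mul_one, show l + 1 - (m + 1) = l - m by omega]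
    rw [← nsmul_eq_mul', mul_smul, Nat.cast_smul_eq_nsmul]
  rw [e1, Matrix.smul_apply, Mm_pow_entry, smul_eq_mul, C_mul, C_pow, map_natCast]
  ring

theorem T_sum {ι : Type*} (s : Finset ι) (f : ι → ℤ[X][X]) : T (∑ i ∈ s, f i) = ∑ i ∈ s, T (f i) := by
  rw [← Tl_apply, map_sum]; rfl

theorem T_hp (l : ℕ) : T (hp l) + w ^ (l + 1) = X ^ (l + 1) := by
  rw [hp_eq, T_sum]
  simp only [T_C_mul, T_h, mul_one]
  have h1 : (X : ℤ[X]) ^ (l + 1) = (1 + w) ^ (l + 1) := by rw [one_add_w]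
  rw [h1, add_pow, Finset.sum_range_succ' _ (l + 1)]
  simp

/-- Kronecker delta `[b = 0]`. -/
noncomputable def dl (b : ℕ) : ℤ[X] := if b = 0 then 1 else 0
theorem dl_zero : dl 0 = 1 := rfl
theorem dl_succ (b : ℕ) : dl (b + 1) = 0 := rfl

theorem Qp_eq : Qp = C X * (Yp - C w) := by
  rw [Qp, Yp, Q]
  simp only [C_mul, map_ofNat]
  ring

theorem Yp_mul_hp_succ (l : ℕ) : Yp * hp (l + 1) = hp (l + 2) + Qp * hp l := by
  rw [hp_add_two]; ring
theorem Yp_mul_hp_zero : Yp * hp 0 = hp 1 := by rw [hp_zero, hp_one, mul_one]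

theorem dvd_D (b : ℕ) : ∀ l, X ^ (b + l + 1) ∣ T (Qp ^ b * hp l) + dl b * w ^ (l + 1) := by
  induction b with
  | zero =>
    intro l
    rw [pow_zero, one_mul, dl_zero, one_mul, T_hp, Nat.zero_add]
  | succ b ih =>
    intro l
    induction l with
    | zero =>
      have e : Qp ^ (b + 1) * hp 0 = C X * (Qp ^ b * hp 1 - C w * (Qp ^ b * hp 0)) := by
        rw [hp_zero, hp_one, pow_succ]; nth_rw 2 [Qp_eq]; ring
      rw [show b + 1 + 0 + 1 = (b + 1) + 1 by ring, e, T_C_mul, T_sub, T_C_mul, dl_succ, zero_mul,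
        add_zero]
      have e2 : T (Qp ^ b * hp 1) - w * T (Qp ^ b * hp 0) =
          (T (Qp ^ b * hp 1) + dl b * w ^ (1 + 1)) -
            w * (T (Qp ^ b * hp 0) + dl b * w ^ (0 + 1)) := by ring
      rw [e2, pow_succ']
      apply mul_dvd_mul_left
      apply dvd_sub
      · exact dvd_trans (pow_dvd_pow _ (by omega)) (ih 1)
      · exact dvd_mul_of_dvd_right (ih 0) _
    | succ l ihl =>
      have e : Qp ^ (b + 1) * hp (l + 1) =
          C X * (Qp ^ b * hp (l + 2) + Qp ^ (b + 1) * hp l - C w * (Qp ^ b * hp (l + 1))) := by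
        calc Qp ^ (b + 1) * hp (l + 1) = Qp ^ b * (Qp * hp (l + 1)) := by ring
          _ = Qp ^ b * (C X * (Yp - C w) * hp (l + 1)) := by rw [← Qp_eq]
          _ = C X * (Qp ^ b * (Yp * hp (l + 1)) - C w * (Qp ^ b * hp (l + 1))) := by ring
          _ = C X * (Qp ^ b * (hp (l + 2) + Qp * hp l) - C w * (Qp ^ b * hp (l + 1))) := by
              rw [Yp_mul_hp_succ]
          _ = _ := by ring
      rw [e, T_C_mul, T_sub, T_C_mul, T_add, dl_succ, zero_mul, add_zero]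
      have e2 : T (Qp ^ b * hp (l + 2)) + T (Qp ^ (b + 1) * hp l) - w * T (Qp ^ b * hp (l + 1)) =
          (T (Qp ^ b * hp (l + 2)) + dl b * w ^ (l + 2 + 1)) +
            (T (Qp ^ (b + 1) * hp l) + dl (b + 1) * w ^ (l + 1)) -
            w * (T (Qp ^ b * hp (l + 1)) + dl b * w ^ (l + 1 + 1)) := by rw [dl_succ]; ring
      rw [e2, show b + 1 + (l + 1) + 1 = (b + l + 2) + 1 by ring, pow_succ']
      apply mul_dvd_mul_left
      apply dvd_sub
      · apply dvd_add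
        · exact dvd_trans (pow_dvd_pow _ (by omega)) (ih (l + 2))
        · exact dvd_trans (pow_dvd_pow _ (by omega)) ihl
      · exact dvd_mul_of_dvd_right (dvd_trans (pow_dvd_pow _ (by omega)) (ih (l + 1))) _

theorem dvd_W (a : ℕ) : ∀ b l, X ^ (b + (a + l + 1) / 2 + 1) ∣
    T (Yp ^ a * Qp ^ b * hp l) + dl b * w ^ (a + l + 1) := by
  induction a with
  | zero =>
    intro b l
    rw [pow_zero, one_mul, Nat.zero_add]
    exact dvd_trans (pow_dvd_pow _ (by omega)) (dvd_D b l)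
  | succ a ih =>
    intro b l
    rcases l with _ | l
    · have e : Yp ^ (a + 1) * Qp ^ b * hp 0 = Yp ^ a * Qp ^ b * hp 1 := by
        rw [← Yp_mul_hp_zero]; ring
      rw [e]
      have := ih b 1
      rw [show a + 1 + 0 + 1 = a + 1 + 1 by ring]; exact this
    · have e : Yp ^ (a + 1) * Qp ^ b * hp (l + 1) =
          Yp ^ a * Qp ^ b * hp (l + 2) + Yp ^ a * Qp ^ (b + 1) * hp l := by
        calc Yp ^ (a + 1) * Qp ^ b * hp (l + 1) = Yp ^ a * Qp ^ b * (Yp * hp (l + 1)) := by ring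
          _ = Yp ^ a * Qp ^ b * (hp (l + 2) + Qp * hp l) := by rw [Yp_mul_hp_succ]
          _ = _ := by ring
      rw [e, T_add]
      have h1 := ih b (l + 2)
      have h2 := ih (b + 1) l
      rw [dl_succ, zero_mul, add_zero] at h2
      have e2 : T (Yp ^ a * Qp ^ b * hp (l + 2)) + T (Yp ^ a * Qp ^ (b + 1) * hp l) +
          dl b * w ^ (a + 1 + (l + 1) + 1) =
          (T (Yp ^ a * Qp ^ b * hp (l + 2)) + dl b * w ^ (a + (l + 2) + 1)) +
            T (Yp ^ a * Qp ^ (b + 1) * hp l) := by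
        rw [show a + 1 + (l + 1) + 1 = a + (l + 2) + 1 by ring]; ring
      rw [e2]
      apply dvd_add
      · exact dvd_trans (pow_dvd_pow _ (by omega)) h1
      · exact dvd_trans (pow_dvd_pow _ (by omega)) h2

/-- The pair property. -/
def PP (Ψ : ℤ[X][X][X]) (ψ : ℤ[X][X]) : Prop :=
  ∀ a b e : ℕ, X ^ ((a + e) / 2 + b + 1) ∣
    T (Yp ^ a * Qp ^ b * Ψ.coeff e) + dl b * w ^ (a + 1) * ψ.coeff e

theorem PP_one : PP 1 1 := by
  intro a b e
  rcases e with _ | e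
  · rw [coeff_one_zero, coeff_one_zero, mul_one, mul_one]
    have := dvd_W a b 0
    rw [hp_zero, mul_one] at this
    exact dvd_trans (pow_dvd_pow _ (by omega)) this
  · rw [coeff_one, coeff_one, if_neg (by omega), if_neg (by omega), mul_zero, mul_zero, T_zero,
      add_zero]
    exact dvd_zero _

theorem PP.add {Ψ Ψ' : ℤ[X][X][X]} {ψ ψ' : ℤ[X][X]} (h1 : PP Ψ ψ) (h2 : PP Ψ' ψ') :
    PP (Ψ + Ψ') (ψ + ψ') := by
  intro a b e
  rw [coeff_add, coeff_add, mul_add, T_add]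
  have := dvd_add (h1 a b e) (h2 a b e)
  convert this using 1; ring

theorem PP.smul {Ψ : ℤ[X][X][X]} {ψ : ℤ[X][X]} (h1 : PP Ψ ψ) (c : ℤ[X]) :
    PP (C (C c) * Ψ) (C c * ψ) := by
  intro a b e
  rw [coeff_C_mul, coeff_C_mul]
  have e1 : Yp ^ a * Qp ^ b * (C c * Ψ.coeff e) = C c * (Yp ^ a * Qp ^ b * Ψ.coeff e) := by ring
  rw [e1, T_C_mul]
  have := dvd_mul_of_dvd_right (h1 a b e) c
  convert this using 1; ring

theorem PP.mulY {Ψ : ℤ[X][X][X]} {ψ : ℤ[X][X]} (h1 : PP Ψ ψ) :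
    PP (C Yp * X * Ψ) (C w * X * ψ) := by
  intro a b e
  have u1 : (C Yp * X * Ψ).coeff e = Yp * (X * Ψ).coeff e := by rw [mul_assoc, coeff_C_mul]
  have u2 : (C w * X * ψ).coeff e = w * (X * ψ).coeff e := by rw [mul_assoc, coeff_C_mul]
  rw [u1, u2]
  rcases e with _ | e
  · simp [T_zero]
  · rw [coeff_X_mul, coeff_X_mul]
    have := h1 (a + 1) b e
    have e1 : Yp ^ a * Qp ^ b * (Yp * Ψ.coeff e) = Yp ^ (a + 1) * Qp ^ b * Ψ.coeff e := by ring
    rw [e1]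
    rw [show (a + 1 + e) / 2 = (a + (e + 1)) / 2 by congr 1; ring] at this
    convert this using 1; ring

theorem PP.mulQ {Ψ : ℤ[X][X][X]} {ψ : ℤ[X][X]} (h1 : PP Ψ ψ) :
    PP (C Qp * X ^ 2 * Ψ) 0 := by
  intro a b e
  have u1 : (C Qp * X ^ 2 * Ψ).coeff e = Qp * (X ^ 2 * Ψ).coeff e := by rw [mul_assoc, coeff_C_mul]
  rw [u1, coeff_zero, mul_zero, add_zero, coeff_X_pow_mul']
  split_ifs with h2
  · obtain ⟨e', rfl⟩ := Nat.exists_eq_add_of_le h2
    rw [Nat.add_sub_cancel_left]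
    have := h1 a (b + 1) e'
    rw [dl_succ, zero_mul, zero_mul, add_zero] at this
    have e1 : Yp ^ a * Qp ^ b * (Qp * Ψ.coeff e') = Yp ^ a * Qp ^ (b + 1) * Ψ.coeff e' := by ring
    rw [e1]
    exact dvd_trans (pow_dvd_pow _ (by omega)) this
  · simp [T_zero]

noncomputable def Psi (j k : ℕ) : ℤ[X][X][X] := (1 + C Yp * X + C Qp * X ^ 2) ^ j * (2 + C Yp * X) ^ k
noncomputable def psi (j k : ℕ) : ℤ[X][X] := (1 + C w * X) ^ j * (2 + C w * X) ^ k

theorem PP_Psi (j k : ℕ) : PP (Psi j k) (psi j k) := by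
  induction j with
  | zero =>
    induction k with
    | zero => simpa [Psi, psi] using PP_one
    | succ k ih =>
      have e1 : Psi 0 (k + 1) = C (C 2) * Psi 0 k + C Yp * X * Psi 0 k := by
        simp only [Psi, map_ofNat]; ring
      have e2 : psi 0 (k + 1) = C 2 * psi 0 k + C w * X * psi 0 k := by
        simp only [psi, map_ofNat]; ring
      rw [e1, e2]
      exact (ih.smul 2).add ih.mulY
  | succ j ih =>
    have e1 : Psi (j + 1) k = (Psi j k + C Yp * X * Psi j k) + C Qp * X ^ 2 * Psi j k := by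
      simp only [Psi]; ring
    have e2 : psi (j + 1) k = (psi j k + C w * X * psi j k) + 0 := by
      simp only [psi]; ring
    rw [e1, e2]
    exact (ih.add ih.mulY).add ih.mulQ

end Pool.Agent.H62.Toric
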