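import Mathlib

/-!
# Definitions: faces, f-vector and toric g-vector of a convex polytope, Kruskal-Katona inequalities
-/

namespace Pool.Agent.H62.Toric

open Polynomial

variable {E : Type*} [AddCommGroup E] [Module ℝ E]

/-- `P` is a convex polytope: the convex hull of a finite set. -/
def IsPolytope (P : Set E) : Prop := ∃ V : Set E, V.Finite ∧ P = convexHull ℝ V

/-- The dimension of a nonempty set: the dimension of its affine hull. -/
noncomputable def dimOf (F : Set E) : ℕ := Module.finrank ℝ (vectorSpan ℝ F)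

/-- `F` is a face of the convex set `Q`: a convex subset such that an open segment between two
points of `Q` meets `F` only if both end points lie in `F` (the empty set and `Q` are faces;
for a polytope these are exactly the intersections with supporting hyperplanes, `∅` and `Q`). -/
def IsFace (Q F : Set E) : Prop := Convex ℝ F ∧ IsExtreme ℝ Q F

/-- The set of all nonempty `k`-dimensional faces of `Q`. -/
def facesOfDim (Q : Set E) (k : ℕ) : Set (Set E) :=
  {F | IsFace Q F ∧ F.Nonempty ∧ dimOf F = k}

/-- The number `f_k` of `k`-dimensional faces. -/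
noncomputable def faceNumber (P : Set E) (k : ℕ) : ℕ := (facesOfDim P k).ncard

/-- `P`, of dimension `d`, is simple: all its vertex figures are simplices, that is, for every
vertex `v` the faces of `P` containing `v`, ordered by inclusion, form a Boolean lattice of
rank `d`. -/
def IsSimplePolytope (P : Set E) : Prop :=
  ∀ v : E, IsFace P {v} → Nonempty ({F : Set E // IsFace P F ∧ v ∈ F} ≃o Finset (Fin (dimOf P)))

/-- The part of degree at most `m` of a polynomial. -/
noncomputable def lowPart (m : ℕ) (p : ℤ[X]) : ℤ[X] :=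
  ∑ i ∈ Finset.range (m + 1), monomial i (p.coeff i)

/-- Stanley's polynomial `g(Q,x)` for a nonempty polytope `Q` of dimension `e`
(first argument `e`). With
`f(Q,x) = (x-1)^e + sum over the nonempty proper faces F of g(F,x) (x-1)^(e-1-dim F)`
(the first term comes from the empty face, whose dimension is `-1` and for which `g = 1`; a
nonempty face is proper if and only if its dimension is less than `e`),
`g(Q,x)` is the part of degree at most `e/2` of `(1-x) f(Q,x)`; that is, its coefficients are
`k_i - k_(i-1)`, `i <= e/2`, if `f(Q,x)` has the coefficients `k_i`. -/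
noncomputable def toricG : ℕ → Set E → ℤ[X]
  | e, Q => lowPart (e / 2) ((1 - X) * ((X - 1) ^ e +
      ∑ k : Fin e, (∑ᶠ F ∈ facesOfDim Q (k : ℕ), toricG (k : ℕ) F) * (X - 1) ^ (e - 1 - (k : ℕ))))
  termination_by e => e
  decreasing_by exact k.isLt

/-- The `i`-th entry of the toric g-vector of the polytope `P`. -/
noncomputable def toricGVector (P : Set E) (i : ℕ) : ℤ := (toricG (dimOf P) P).coeff i

/-- `γ` is the gamma-vector of `P` (of dimension `d`):
`sum_i f_i (t-1)^i = sum_j γ_j t^j (1+t)^(d-2j)`, where `j <= d/2`. -/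
def IsGammaVector (P : Set E) (γ : ℕ → ℤ) : Prop :=
  ∑ i ∈ Finset.range (dimOf P + 1), C (faceNumber P i : ℤ) * (X - 1) ^ i =
    ∑ j ∈ Finset.range (dimOf P / 2 + 1), C (γ j) * X ^ j * (1 + X) ^ (dimOf P - 2 * j)

/-- The binomial expansion `a = C(c k, k) + C(c (k-1), k-1) + ... + C(c j, j)` with
`c k > c (k-1) > ... > c j >= j >= 1`. -/
def IsCascade (k a j : ℕ) (c : ℕ → ℕ) : Prop :=
  1 ≤ j ∧ j ≤ k ∧ j ≤ c j ∧ (∀ i, j ≤ i → i < k → c i < c (i + 1)) ∧
    a = ∑ i ∈ Finset.Icc j k, (c i).choose i

/-- `b ≤ a^⟨k⟩`: either `a = b = 0`, or `a ≥ 1` has the (unique) expansion as in `IsCascade` and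
`b` is at most `C(c k, k+1) + ... + C(c j, j+1)`. -/
def LeUpper (k a b : ℕ) : Prop :=
  (a = 0 ∧ b = 0) ∨
    ∃ j c, IsCascade k a j c ∧ b ≤ ∑ i ∈ Finset.Icc j k, (c i).choose (i + 1)

/-- The Kruskal-Katona inequalities for the integer vector `(v 0, ..., v m)`. -/
def KruskalKatona (m : ℕ) (v : ℕ → ℤ) : Prop :=
  v 0 = 1 ∧ (∀ i ≤ m, 0 ≤ v i) ∧
    ∀ k, 1 ≤ k → k + 1 ≤ m → LeUpper k (v k).toNat (v (k + 1)).toNat

end Pool.Agent.H62.Toric
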