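import Pool.Agent.H62.Toric.Alg4
import Pool.Agent.H62.Toric.Defs

namespace Pool.Agent.H62.Toric

open Polynomial

noncomputable def F0 (j k : ℕ) : ℤ[X][X][X] :=
  (1 + C X * X + C Q * X ^ 2) ^ j * (2 + C X * X) ^ k

theorem F0_zero_succ (k : ℕ) : F0 0 (k + 1) = C (C (C 2)) * F0 0 k + C X * (X * F0 0 k) := by
  simp only [F0, map_ofNat]; ring

theorem F0_succ (j k : ℕ) : F0 (j + 1) k =
    F0 j k + C X * (X * F0 j k) + C Q * (X * (X * F0 j k)) := by
  simp only [F0]; ring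

theorem natDegree_F0 (j k : ℕ) : (F0 j k).natDegree ≤ 2 * j + k := by
  rw [F0]
  refine le_trans natDegree_mul_le ?_
  apply add_le_add
  · refine le_trans natDegree_pow_le ?_
    rw [mul_comm]
    apply Nat.mul_le_mul_right
    compute_degree
  · refine le_trans natDegree_pow_le ?_
    have : (2 + C X * X : ℤ[X][X][X]).natDegree ≤ 1 := by compute_degree
    calc k * _ ≤ k * 1 := Nat.mul_le_mul_left _ this
      _ = k := mul_one _

/-- the transform -/
noncomputable def tr (d : ℕ) (F : ℤ[X][X][X]) : ℤ[X][X][X] :=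
  ∑ e ∈ Finset.range (d + 1), C (F.coeff e) * X ^ e * (1 + C (C w) * X) ^ (d - e)

theorem tr_add (d : ℕ) (F G : ℤ[X][X][X]) : tr d (F + G) = tr d F + tr d G := by
  rw [tr, tr, tr, ← Finset.sum_add_distrib]
  apply Finset.sum_congr rfl
  intro e _
  rw [coeff_add, C_add]; ring

theorem tr_C_mul (d : ℕ) (r : ℤ[X][X]) (F : ℤ[X][X][X]) : tr d (C r * F) = C r * tr d F := by
  rw [tr, tr, Finset.mul_sum]
  apply Finset.sum_congr rfl
  intro e _
  rw [coeff_C_mul, C_mul]; ring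

theorem tr_succ (d : ℕ) (F : ℤ[X][X][X]) (hF : F.natDegree ≤ d) :
    tr (d + 1) F = (1 + C (C w) * X) * tr d F := by
  rw [tr, Finset.sum_range_succ, coeff_eq_zero_of_natDegree_lt (by omega), map_zero, zero_mul,
    zero_mul, add_zero, tr, Finset.mul_sum]
  apply Finset.sum_congr rfl
  intro e he
  rw [Finset.mem_range] at he
  rw [show d + 1 - e = (d - e) + 1 by omega, pow_succ]; ring

theorem tr_X_mul (d : ℕ) (F : ℤ[X][X][X]) : tr (d + 1) (X * F) = X * tr d F := by
  rw [tr, Finset.sum_range_succ', mul_coeff_zero, coeff_X_zero, zero_mul, map_zero, zero_mul,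
    zero_mul, add_zero, tr, Finset.mul_sum]
  apply Finset.sum_congr rfl
  intro e he
  rw [coeff_X_mul, show d + 1 - (e + 1) = d - e by omega, pow_succ]; ring

theorem tr_F0 (j k : ℕ) : tr (2 * j + k) (F0 j k) = Psi j k := by
  induction j with
  | zero =>
    induction k with
    | zero => simp [tr, F0, Psi]
    | succ k ih =>
      rw [mul_zero, Nat.zero_add] at ih ⊢
      have hd := natDegree_F0 0 k
      rw [mul_zero, Nat.zero_add] at hd
      rw [F0_zero_succ, tr_add, tr_C_mul, tr_C_mul, tr_succ _ _ hd, tr_X_mul, ih]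
      simp only [Psi, Yp_def, map_add, map_mul, map_ofNat]
      ring
  | succ j ih =>
    have hd := natDegree_F0 j k
    rw [F0_succ, tr_add, tr_add, tr_C_mul, tr_C_mul, show 2 * (j + 1) + k = (2 * j + k + 1) + 1 by ring,
      tr_succ _ _ (by omega), tr_X_mul, tr_X_mul, tr_succ _ _ hd, tr_X_mul, ih]
    have hx : (C (C (X : ℤ[X])) : ℤ[X][X][X]) = 1 + C (C w) := by
      rw [← one_add_w]; simp
    simp only [Psi, Yp_def, Qp, Q, map_add, map_mul, map_ofNat]
    rw [hx]
    ring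

theorem coeff_one_add_pow (c : ℤ[X][X]) (n m : ℕ) :
    ((1 + C c * X : ℤ[X][X][X]) ^ n).coeff m = (n.choose m : ℤ[X][X]) * c ^ m := by
  have e : (1 + C c * X : ℤ[X][X][X]) ^ n = ((1 + X) ^ n : ℤ[X][X][X]).comp (C c * X) := by simp
  rw [e, comp_C_mul_X_coeff, coeff_one_add_X_pow]

theorem coeff_tr (d : ℕ) (F : ℤ[X][X][X]) (e : ℕ) (he : e ≤ d) :
    (tr d F).coeff e = ∑ i ∈ Finset.range (e + 1),
      C (w ^ (e - i) * ((d - i).choose (e - i) : ℕ)) * F.coeff i := by
  rw [tr, finsetSum_coeff]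
  rw [← Finset.sum_subset (Finset.range_mono (show e + 1 ≤ d + 1 by omega))]
  · apply Finset.sum_congr rfl
    intro i hi
    rw [Finset.mem_range] at hi
    rw [mul_assoc, coeff_C_mul, coeff_X_pow_mul', if_pos (by omega), coeff_one_add_pow]
    simp [C_mul, C_pow]
    ring
  · intro i _ hi
    rw [Finset.mem_range, not_lt] at hi
    rw [mul_assoc, coeff_C_mul, coeff_X_pow_mul', if_neg (by omega), mul_zero]

/-- the total generating polynomial -/
noncomputable def Ftot (d : ℕ) (γ : ℕ → ℤ) : ℤ[X][X][X] :=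
  ∑ j ∈ Finset.range (d / 2 + 1), C (C (C (γ j))) * F0 j (d - 2 * j)

noncomputable def Sh (d : ℕ) (γ : ℕ → ℤ) (e : ℕ) : ℤ[X] := T ((Ftot d γ).coeff e)

theorem tr_Ftot (d : ℕ) (γ : ℕ → ℤ) : tr d (Ftot d γ) =
    ∑ j ∈ Finset.range (d / 2 + 1), C (C (C (γ j))) * Psi j (d - 2 * j) := by
  have hsum : ∀ s : Finset ℕ, tr d (∑ j ∈ s, C (C (C (γ j))) * F0 j (d - 2 * j)) =
      ∑ j ∈ s, tr d (C (C (C (γ j))) * F0 j (d - 2 * j)) := by
    intro s
    induction s using Finset.induction_on with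
    | empty => simp [tr]
    | insert a s ha ih => rw [Finset.sum_insert ha, Finset.sum_insert ha, tr_add, ih]
  rw [Ftot, hsum]
  apply Finset.sum_congr rfl
  intro j hj
  rw [Finset.mem_range] at hj
  rw [tr_C_mul]
  congr 1
  have := tr_F0 j (d - 2 * j)
  rw [show 2 * j + (d - 2 * j) = d by omega] at this
  exact this

noncomputable def psitot (d : ℕ) (γ : ℕ → ℤ) : ℤ[X][X] :=
  ∑ j ∈ Finset.range (d / 2 + 1), C (C (γ j)) * psi j (d - 2 * j)

theorem PP_tot (d : ℕ) (γ : ℕ → ℤ) : PP (tr d (Ftot d γ)) (psitot d γ) := by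
  rw [tr_Ftot, psitot]
  generalize Finset.range (d / 2 + 1) = s
  induction s using Finset.induction_on with
  | empty =>
    intro a b e
    simp [T_zero]
  | insert a s ha ih =>
    rw [Finset.sum_insert ha, Finset.sum_insert ha]
    exact ((PP_Psi a (d - 2 * a)).smul (C (γ a))).add ih

theorem psi_coeff (j k e : ℕ) : (psi j k).coeff e =
    C (((1 + X) ^ j * (2 + X) ^ k : ℤ[X]).coeff e) * w ^ e := by
  have : psi j k = (((1 + X) ^ j * (2 + X) ^ k : ℤ[X]).map (C : ℤ →+* ℤ[X])).comp (C w * X) := by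
    simp [psi]
  rw [this, comp_C_mul_X_coeff, coeff_map]

theorem psitot_coeff (d : ℕ) (γ f : ℕ → ℤ)
    (hγ : ∑ i ∈ Finset.range (d + 1), C (f i) * (X - 1 : ℤ[X]) ^ i =
      ∑ j ∈ Finset.range (d / 2 + 1), C (γ j) * X ^ j * (1 + X) ^ (d - 2 * j))
    (e : ℕ) (he : e ≤ d) : (psitot d γ).coeff e = C (f e) * w ^ e := by
  have h1 : f e = (∑ j ∈ Finset.range (d / 2 + 1), C (γ j) * ((1 + X) ^ j * (2 + X) ^ (d - 2 * j)) : ℤ[X]).coeff e := by
    have h2 := congrArg (fun p : ℤ[X] => (compRingHom (X + 1) p).coeff e) hγ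
    simp only [map_sum, coe_compRingHom_apply] at h2
    have h3 : ∀ i, (C (f i) * (X - 1 : ℤ[X]) ^ i).comp (X + 1) = C (f i) * X ^ i := by
      intro i; simp
    have h4 : ∀ j, (C (γ j) * X ^ j * (1 + X : ℤ[X]) ^ (d - 2 * j)).comp (X + 1) =
        C (γ j) * ((1 + X) ^ j * (2 + X) ^ (d - 2 * j)) := by
      intro j
      simp only [mul_comp, C_comp, pow_comp, X_comp, add_comp, one_comp]
      ring
    simp only [h3, h4] at h2
    rw [← h2, finsetSum_coeff]
    simp only [coeff_C_mul, coeff_X_pow]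
    simp
    intro h5; omega
  rw [psitot, finsetSum_coeff, h1, finsetSum_coeff, map_sum, Finset.sum_mul]
  apply Finset.sum_congr rfl
  intro j _
  rw [coeff_C_mul, psi_coeff, coeff_C_mul, C_mul, mul_assoc]

theorem dvd_main (d : ℕ) (γ f : ℕ → ℤ)
    (hγ : ∑ i ∈ Finset.range (d + 1), C (f i) * (X - 1 : ℤ[X]) ^ i =
      ∑ j ∈ Finset.range (d / 2 + 1), C (γ j) * X ^ j * (1 + X) ^ (d - 2 * j))
    (e : ℕ) (he : e ≤ d) : X ^ (e / 2 + 1) ∣
      ∑ i ∈ Finset.range (e + 1), w ^ (e - i) * ((d - i).choose (e - i) : ℕ) * Sh d γ i +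
        w ^ (e + 1) * C (f e) := by
  have h1 := PP_tot d γ 0 0 e
  rw [psitot_coeff d γ f hγ e he, coeff_tr d _ e he, pow_zero, pow_zero, one_mul, one_mul, T_sum,
    dl_zero, one_mul, Nat.zero_add, Nat.add_zero, Nat.zero_add, pow_one] at h1
  simp only [T_C_mul] at h1
  convert h1 using 1
  simp only [Sh]
  congr 1
  rw [pow_succ]; ring

/-- degree property -/
def DD (Ψ : ℤ[X][X][X]) : Prop :=
  ∀ a b e i : ℕ, a + 2 * b + e < 2 * i → (T (X ^ a * Q ^ b * Ψ.coeff e)).coeff i = 0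

theorem DD_one : DD 1 := by
  intro a b e i hi
  rcases e with _ | e
  · rw [coeff_one_zero, mul_one]
    have := (good_T a b 0).2.1 i (by omega)
    rw [h_zero, mul_one] at this
    exact this
  · rw [coeff_one, if_neg (by omega), mul_zero, T_zero]; simp

theorem DD.add {Ψ Ψ' : ℤ[X][X][X]} (h1 : DD Ψ) (h2 : DD Ψ') : DD (Ψ + Ψ') := by
  intro a b e i hi
  rw [coeff_add, mul_add, T_add, coeff_add, h1 a b e i hi, h2 a b e i hi, add_zero]

theorem DD.smul {Ψ : ℤ[X][X][X]} (h1 : DD Ψ) (c : ℤ) : DD (C (C (C c)) * Ψ) := by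
  intro a b e i hi
  rw [coeff_C_mul]
  have e1 : X ^ a * Q ^ b * (C (C c) * Ψ.coeff e) = C (C c) * (X ^ a * Q ^ b * Ψ.coeff e) := by ring
  rw [e1, T_C_mul, coeff_C_mul, h1 a b e i hi, mul_zero]

theorem DD.mulY {Ψ : ℤ[X][X][X]} (h1 : DD Ψ) : DD (C X * (X * Ψ)) := by
  intro a b e i hi
  rw [coeff_C_mul]
  rcases e with _ | e
  · simp [T_zero]
  · rw [coeff_X_mul]
    have e1 : X ^ a * Q ^ b * (X * Ψ.coeff e) = X ^ (a + 1) * Q ^ b * Ψ.coeff e := by ring
    rw [e1]
    exact h1 (a + 1) b e i (by omega)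

theorem DD.mulQ {Ψ : ℤ[X][X][X]} (h1 : DD Ψ) : DD (C Q * (X * (X * Ψ))) := by
  intro a b e i hi
  rw [coeff_C_mul]
  rcases e with _ | e
  · simp [T_zero]
  · rw [coeff_X_mul]
    rcases e with _ | e
    · simp [T_zero]
    · rw [coeff_X_mul]
      have e1 : X ^ a * Q ^ b * (Q * Ψ.coeff e) = X ^ a * Q ^ (b + 1) * Ψ.coeff e := by ring
      rw [e1]
      exact h1 a (b + 1) e i (by omega)

theorem DD_F0 (j k : ℕ) : DD (F0 j k) := by
  induction j with
  | zero =>
    induction k with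
    | zero => simpa [F0] using DD_one
    | succ k ih =>
      rw [F0_zero_succ]
      exact (ih.smul 2).add ih.mulY
  | succ j ih =>
    rw [F0_succ]
    exact (ih.add ih.mulY).add ih.mulQ

theorem DD_tot (d : ℕ) (γ : ℕ → ℤ) : DD (Ftot d γ) := by
  rw [Ftot]
  generalize Finset.range (d / 2 + 1) = s
  induction s using Finset.induction_on with
  | empty =>
    intro a b e i _
    simp [T_zero]
  | insert a s ha ih =>
    rw [Finset.sum_insert ha]
    exact ((DD_F0 a (d - 2 * a)).smul (γ a)).add ih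

theorem Sh_coeff_zero (d : ℕ) (γ : ℕ → ℤ) (e i : ℕ) (hi : e < 2 * i) : (Sh d γ e).coeff i = 0 := by
  have := DD_tot d γ 0 0 e i (by omega)
  rw [pow_zero, pow_zero, one_mul, one_mul] at this
  exact this

theorem F0_coeff_top (j k : ℕ) : (F0 j k).coeff (2 * j + k) = X ^ k * Q ^ j := by
  induction j with
  | zero =>
    induction k with
    | zero => simp [F0]
    | succ k ih =>
      rw [mul_zero, Nat.zero_add] at ih ⊢
      have hd := natDegree_F0 0 k
      rw [F0_zero_succ, coeff_add, coeff_C_mul, coeff_C_mul, coeff_X_mul, ih,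
        coeff_eq_zero_of_natDegree_lt (by omega)]
      ring
  | succ j ih =>
    have hd := natDegree_F0 j k
    rw [F0_succ, coeff_add, coeff_add, coeff_C_mul, coeff_C_mul,
      show 2 * (j + 1) + k = (2 * j + k + 1) + 1 by ring, coeff_X_mul, coeff_X_mul, coeff_X_mul, ih,
      coeff_eq_zero_of_natDegree_lt (show (F0 j k).natDegree < 2 * j + k + 1 + 1 by omega),
      coeff_eq_zero_of_natDegree_lt (show (F0 j k).natDegree < 2 * j + k + 1 by omega)]
    ring

theorem Sh_top (d : ℕ) (γ : ℕ → ℤ) : Sh d γ d =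
    ∑ j ∈ Finset.range (d / 2 + 1), C (γ j) * T (X ^ (d - 2 * j) * Q ^ j) := by
  rw [Sh, Ftot, finsetSum_coeff, T_sum]
  apply Finset.sum_congr rfl
  intro j hj
  rw [Finset.mem_range] at hj
  rw [coeff_C_mul, T_C_mul]
  have := F0_coeff_top j (d - 2 * j)
  rw [show 2 * j + (d - 2 * j) = d by omega] at this
  rw [this]

theorem coeff_lowPart (m : ℕ) (p : ℤ[X]) (i : ℕ) :
    (lowPart m p).coeff i = if i ≤ m then p.coeff i else 0 := by
  rw [lowPart, finsetSum_coeff]
  simp only [coeff_monomial]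
  rw [Finset.sum_ite_eq' ]
  simp only [Finset.mem_range, Nat.lt_succ_iff]

theorem lowPart_add (m : ℕ) (p q : ℤ[X]) : lowPart m (p + q) = lowPart m p + lowPart m q := by
  ext i
  rw [coeff_add, coeff_lowPart, coeff_lowPart, coeff_lowPart, coeff_add]
  split_ifs <;> simp

/-- uniqueness of the solution of the recursion. -/
theorem unique_S (d : ℕ) (γ f : ℕ → ℤ)
    (hγ : ∑ i ∈ Finset.range (d + 1), C (f i) * (X - 1 : ℤ[X]) ^ i =
      ∑ j ∈ Finset.range (d / 2 + 1), C (γ j) * X ^ j * (1 + X) ^ (d - 2 * j))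
    (S : ℕ → ℤ[X])
    (hS : ∀ e ≤ d, S e = lowPart (e / 2) (-(w ^ (e + 1) * C (f e) +
      ∑ i ∈ Finset.range e, w ^ (e - i) * ((d - i).choose (e - i) : ℕ) * S i))) :
    ∀ e ≤ d, S e = Sh d γ e := by
  intro e
  induction e using Nat.strong_induction_on with
  | _ e ih =>
    intro he
    rw [hS e he]
    have h1 : ∑ i ∈ Finset.range e, w ^ (e - i) * ((d - i).choose (e - i) : ℕ) * S i =
        ∑ i ∈ Finset.range e, w ^ (e - i) * ((d - i).choose (e - i) : ℕ) * Sh d γ i := by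
      apply Finset.sum_congr rfl
      intro i hi
      rw [Finset.mem_range] at hi
      rw [ih i hi (by omega)]
    rw [h1]
    obtain ⟨r, hr⟩ := dvd_main d γ f hγ e he
    rw [Finset.sum_range_succ] at hr
    simp only [Nat.sub_self, pow_zero, Nat.choose_zero_right, Nat.cast_one, one_mul] at hr
    have h2 : -(w ^ (e + 1) * C (f e) +
        ∑ i ∈ Finset.range e, w ^ (e - i) * ((d - i).choose (e - i) : ℕ) * Sh d γ i) =
        Sh d γ e - X ^ (e / 2 + 1) * r := by
      rw [← hr]; ring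
    rw [h2]
    ext i
    rw [coeff_lowPart]
    split_ifs with hi
    · rw [coeff_sub, coeff_X_pow_mul', if_neg (by omega), sub_zero]
    · rw [Sh_coeff_zero d γ e i (by omega)]

end Pool.Agent.H62.Toric
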