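import Pool.Agent.H62.Toric.Defs

namespace Pool.Agent.H62.Toric

open Set

section basic

variable {E : Type*} [AddCommGroup E] [Module ℝ E]

theorem IsFace.trans {P F G : Set E} (h1 : IsFace P F) (h2 : IsFace F G) : IsFace P G :=
  ⟨h2.1, h1.2.trans h2.2⟩

theorem IsFace.mono {P F G : Set E} (h1 : IsFace P G) (hF : F ⊆ P) (hG : G ⊆ F) : IsFace F G :=
  ⟨h1.1, h1.2.mono hF hG⟩

theorem facesOfDim_face {P F : Set E} (hF : IsFace P F) (k : ℕ) :
    facesOfDim F k = {G | G ∈ facesOfDim P k ∧ G ⊆ F} := by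
  ext G
  constructor
  · rintro ⟨h1, h2, h3⟩
    exact ⟨⟨hF.trans h1, h2, h3⟩, h1.2.subset⟩
  · rintro ⟨⟨h1, h2, h3⟩, h4⟩
    exact ⟨h1.mono hF.2.subset h4, h2, h3⟩

theorem mem_face_of_pos {P F : Set E} (s : Finset E) (hP : P = convexHull ℝ (s : Set E))
    (hF : IsFace P F) {x : E} (hx : x ∈ F) (wt : E → ℝ) (h0 : ∀ y ∈ s, 0 ≤ wt y)
    (h1 : ∑ y ∈ s, wt y = 1) (h2 : ∑ y ∈ s, wt y • y = x) (y : E) (hy : y ∈ s) (hpos : 0 < wt y) :
    y ∈ F := by
  classical
  have hsum : wt y + ∑ u ∈ s.erase y, wt u = 1 := by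
    rw [Finset.add_sum_erase s wt hy]; exact h1
  have hsum2 : wt y • y + ∑ u ∈ s.erase y, wt u • u = x := by
    rw [Finset.add_sum_erase s (fun u => wt u • u) hy]; exact h2
  have hnn : ∀ u ∈ s.erase y, 0 ≤ wt u := fun u hu => h0 u (Finset.mem_of_mem_erase hu)
  have hnn' : 0 ≤ ∑ u ∈ s.erase y, wt u := Finset.sum_nonneg hnn
  rcases hnn'.eq_or_lt with he | hlt
  · -- all other weights vanish
    have hz : ∀ u ∈ s.erase y, wt u = 0 := (Finset.sum_eq_zero_iff_of_nonneg hnn).mp he.symm
    have h3 : ∑ u ∈ s.erase y, wt u • u = 0 :=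
      Finset.sum_eq_zero (fun u hu => by rw [hz u hu, zero_smul])
    rw [← he, add_zero] at hsum
    rw [h3, hsum, one_smul, add_zero] at hsum2
    rw [hsum2]; exact hx
  · set c := ∑ u ∈ s.erase y, wt u with hc
    have hz : c⁻¹ • ∑ u ∈ s.erase y, wt u • u ∈ P := by
      rw [hP, Finset.smul_sum]
      have : ∑ u ∈ s.erase y, c⁻¹ • wt u • u = ∑ u ∈ s.erase y, (c⁻¹ * wt u) • u := by
        apply Finset.sum_congr rfl; intro u _; rw [smul_smul]
      rw [this]
      apply (convex_convexHull ℝ (s : Set E)).sum_mem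
      · intro u hu; exact mul_nonneg (inv_nonneg.mpr hnn') (hnn u hu)
      · rw [← Finset.mul_sum, ← hc, inv_mul_cancel₀ hlt.ne']
      · intro u hu; exact subset_convexHull ℝ _ (Finset.mem_of_mem_erase hu)
    have hyP : y ∈ P := by rw [hP]; exact subset_convexHull ℝ _ hy
    refine hF.2.left_mem_of_mem_openSegment hyP hz hx ?_
    refine ⟨wt y, c, hpos, hlt, hsum, ?_⟩
    rw [smul_smul, mul_inv_cancel₀ hlt.ne', one_smul]
    exact hsum2

theorem face_eq_hull {P F : Set E} (s : Finset E) (hP : P = convexHull ℝ (s : Set E))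
    (hF : IsFace P F) : F = convexHull ℝ ((s : Set E) ∩ F) := by
  classical
  apply Subset.antisymm
  · intro x hx
    have hxP : x ∈ convexHull ℝ (s : Set E) := by rw [← hP]; exact hF.2.subset hx
    rw [Finset.mem_convexHull'] at hxP
    obtain ⟨wt, h0, h1, h2⟩ := hxP
    have h3 : ∑ y ∈ s.filter (fun y => 0 < wt y), wt y • y = x := by
      rw [← h2]
      apply Finset.sum_subset (Finset.filter_subset _ _)
      intro y hy hy2
      rw [Finset.mem_filter, not_and, not_lt] at hy2
      have : wt y = 0 := le_antisymm (hy2 hy) (h0 y hy)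
      rw [this, zero_smul]
    have h4 : ∑ y ∈ s.filter (fun y => 0 < wt y), wt y = 1 := by
      rw [← h1]
      apply Finset.sum_subset (Finset.filter_subset _ _)
      intro y hy hy2
      rw [Finset.mem_filter, not_and, not_lt] at hy2
      exact le_antisymm (hy2 hy) (h0 y hy)
    rw [← h3]
    apply (convex_convexHull ℝ _).sum_mem
    · intro y hy; exact h0 y (Finset.mem_filter.mp hy).1
    · exact h4
    · intro y hy
      rw [Finset.mem_filter] at hy
      exact subset_convexHull ℝ _ ⟨hy.1, mem_face_of_pos s hP hF hx wt h0 h1 h2 y hy.1 hy.2⟩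
  · exact convexHull_min inter_subset_right hF.1

theorem finite_faces {P : Set E} (hP : IsPolytope P) : {F | IsFace P F}.Finite := by
  obtain ⟨V, hV, rfl⟩ := hP
  apply (hV.finite_subsets.image (fun W => convexHull ℝ W)).subset
  intro F hF
  refine ⟨V ∩ F, inter_subset_left, ?_⟩
  have := face_eq_hull (P := convexHull ℝ V) hV.toFinset (by rw [hV.coe_toFinset]) hF
  rw [hV.coe_toFinset] at this
  exact this.symm

theorem finite_facesOfDim {P : Set E} (hP : IsPolytope P) (k : ℕ) : (facesOfDim P k).Finite :=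
  (finite_faces hP).subset (fun _ hF => hF.1)

end basic

section normed

variable {E : Type*} [NormedAddCommGroup E] [NormedSpace ℝ E] [FiniteDimensional ℝ E]

omit [FiniteDimensional ℝ E] in
theorem exists_vertex {P F : Set E} (hP : IsPolytope P) (hF : IsFace P F) (hne : F.Nonempty) :
    ∃ v ∈ F, IsFace P {v} := by
  obtain ⟨V, hV, rfl⟩ := hP
  have h1 := face_eq_hull (P := convexHull ℝ V) hV.toFinset (by rw [hV.coe_toFinset]) hF
  rw [hV.coe_toFinset] at h1
  have hc : IsCompact F := by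
    rw [h1]; exact Set.Finite.isCompact_convexHull ℝ (hV.inter_of_left F)
  obtain ⟨v, hv⟩ := hc.extremePoints_nonempty hne
  refine ⟨v, hv.1, hF.trans ⟨convex_singleton v, ?_⟩⟩
  rwa [isExtreme_singleton]

theorem face_eq_of_subset_affineSpan {F G : Set E} (hG : IsFace F G) (hne : G.Nonempty)
    (hsub : F ⊆ affineSpan ℝ G) : F = G := by
  apply Subset.antisymm _ hG.2.subset
  intro y hy
  obtain ⟨x, hx⟩ := hne.intrinsicInterior hG.1
  rw [mem_intrinsicInterior] at hx
  obtain ⟨x', hx', hxx⟩ := hx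
  have hxG : x ∈ G := by
    have := interior_subset hx'
    rw [Set.mem_preimage, hxx] at this
    exact this
  have hyA : y ∈ affineSpan ℝ G := hsub hy
  have hxA : x ∈ affineSpan ℝ G := subset_affineSpan ℝ G hxG
  let φ : ℝ → affineSpan ℝ G := fun t => ⟨AffineMap.lineMap x y t, AffineMap.lineMap_mem t hxA hyA⟩
  have hφ : Continuous φ := by
    apply Continuous.subtype_mk
    exact AffineMap.lineMap_continuous
  have hφ0 : φ 0 = x' := by
    apply Subtype.ext
    simp [φ, hxx]
  have hmem : φ ⁻¹' (interior ((↑) ⁻¹' G : Set (affineSpan ℝ G))) ∈ nhds (0 : ℝ) := by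
    apply hφ.continuousAt.preimage_mem_nhds
    rw [hφ0]
    exact isOpen_interior.mem_nhds hx'
  obtain ⟨ε, hε, hball⟩ := Metric.mem_nhds_iff.mp hmem
  have hz : φ (-(ε / 2)) ∈ interior ((↑) ⁻¹' G : Set (affineSpan ℝ G)) := by
    apply hball
    rw [Metric.mem_ball, dist_zero_right, Real.norm_eq_abs, abs_neg, abs_of_pos (by linarith)]
    linarith
  have hz' := interior_subset hz
  have hzG : (AffineMap.lineMap x y (-(ε / 2)) : E) ∈ G := hz'
  set z : E := AffineMap.lineMap x y (-(ε / 2)) with hzdef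
  have hzF : z ∈ F := hG.2.subset hzG
  refine hG.2.left_mem_of_mem_openSegment hy hzF hxG ?_
  have hd : (0 : ℝ) < 1 + ε / 2 := by linarith
  refine ⟨(ε / 2) / (1 + ε / 2), 1 / (1 + ε / 2), by positivity, by positivity, ?_, ?_⟩
  · field_simp; ring
  · rw [hzdef, AffineMap.lineMap_apply_module]
    have h1 : (1 / (1 + ε / 2)) • ((1 - -(ε / 2)) • x + (-(ε / 2)) • y) =
        x - ((ε / 2) / (1 + ε / 2)) • y := by
      rw [smul_add, smul_smul, smul_smul]
      have e1 : 1 / (1 + ε / 2) * (1 - -(ε / 2)) = 1 := by field_simp; ring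
      have e2 : 1 / (1 + ε / 2) * -(ε / 2) = -((ε / 2) / (1 + ε / 2)) := by ring
      rw [e1, e2, one_smul, neg_smul, sub_eq_add_neg]
    rw [h1]; abel

theorem dimOf_mono {F G : Set E} (h : G ⊆ F) : dimOf G ≤ dimOf F :=
  Submodule.finrank_mono (vectorSpan_mono ℝ h)

theorem dimOf_lt {P F G : Set E} (hF : IsFace P F) (hG : IsFace P G) (hne : G.Nonempty)
    (hsub : G ⊆ F) (hneq : G ≠ F) : dimOf G < dimOf F := by
  refine lt_of_le_of_ne (dimOf_mono hsub) ?_
  intro heq
  apply hneq
  have h1 : vectorSpan ℝ G = vectorSpan ℝ F :=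
    Submodule.eq_of_le_of_finrank_eq (vectorSpan_mono ℝ hsub) heq
  have hle : affineSpan ℝ G ≤ affineSpan ℝ F := affineSpan_mono ℝ hsub
  have h2 : affineSpan ℝ G = affineSpan ℝ F := by
    apply AffineSubspace.eq_of_direction_eq_of_nonempty_of_le
    · rw [direction_affineSpan, direction_affineSpan, h1]
    · exact (affineSpan_nonempty ℝ).mpr hne
    · exact hle
  have h3 : F ⊆ affineSpan ℝ G := by rw [h2]; exact subset_affineSpan ℝ F
  exact (face_eq_of_subset_affineSpan (hG.mono hF.2.subset hsub) hne h3).symm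

omit [FiniteDimensional ℝ E] in
theorem isFace_self {P : Set E} (hP : IsPolytope P) : IsFace P P := by
  obtain ⟨V, _, rfl⟩ := hP
  exact ⟨convex_convexHull ℝ V, IsExtreme.refl ℝ _⟩

/-- In a simple polytope, the Boolean rank is the dimension. -/
theorem dim_eq_card {P : Set E} (v : E)
    (φ : {F : Set E // IsFace P F ∧ v ∈ F} ≃o Finset (Fin (dimOf P))) (S : Finset (Fin (dimOf P))) :
    dimOf (φ.symm S).1 = S.card := by
  classical
  have hlt : ∀ S S' : Finset (Fin (dimOf P)), S ⊂ S' → dimOf (φ.symm S).1 < dimOf (φ.symm S').1 := by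
    intro S S' hss
    have h1 : φ.symm S < φ.symm S' := (OrderIso.lt_iff_lt φ.symm).mpr hss
    have h2 : (φ.symm S).1 ⊆ (φ.symm S').1 := h1.le
    refine dimOf_lt (φ.symm S').2.1 (φ.symm S).2.1 ⟨v, (φ.symm S).2.2⟩ h2 ?_
    intro he
    exact h1.ne (Subtype.ext he)
  have ha : ∀ S : Finset (Fin (dimOf P)), S.card ≤ dimOf (φ.symm S).1 := by
    intro S
    induction S using Finset.induction_on with
    | empty => simp
    | insert a S ha ih =>
      have := hlt S (insert a S) (Finset.ssubset_insert ha)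
      rw [Finset.card_insert_of_notMem ha]; omega
  have hb : ∀ U : Finset (Fin (dimOf P)), dimOf (φ.symm Uᶜ).1 + U.card ≤ dimOf P := by
    intro U
    induction U using Finset.induction_on with
    | empty =>
      rw [Finset.card_empty, add_zero]
      exact dimOf_mono (φ.symm ∅ᶜ).2.1.2.subset
    | insert a U ha ih =>
      have h1 : (insert a U)ᶜ ⊂ Uᶜ := by
        rw [Finset.ssubset_iff_of_subset]
        · refine ⟨a, by simpa using ha, by simp⟩
        · intro b hb; simp at hb ⊢; exact hb.2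
      have := hlt _ _ h1
      rw [Finset.card_insert_of_notMem ha]; omega
  have h1 := ha S
  have h2 := hb Sᶜ
  rw [compl_compl, Finset.card_compl, Fintype.card_fin] at h2
  have h3 : S.card ≤ dimOf P := by
    have := Finset.card_le_univ S; rwa [Fintype.card_fin] at this
  omega

theorem card_supersets {n : ℕ} (A : Finset (Fin n)) (e : ℕ) (he : A.card ≤ e) :
    (Finset.univ.filter (fun S : Finset (Fin n) => A ⊆ S ∧ S.card = e)).card =
      (n - A.card).choose (e - A.card) := by
  classical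
  have : Finset.univ.filter (fun S : Finset (Fin n) => A ⊆ S ∧ S.card = e) =
      (Finset.powersetCard (e - A.card) Aᶜ).image (fun U => A ∪ U) := by
    ext S
    simp only [Finset.mem_filter, Finset.mem_univ, true_and, Finset.mem_image,
      Finset.mem_powersetCard]
    constructor
    · rintro ⟨h1, h2⟩
      refine ⟨S \ A, ⟨?_, ?_⟩, ?_⟩
      · intro x hx; simp at hx ⊢; exact hx.2
      · rw [Finset.card_sdiff_of_subset h1, h2]
      · exact Finset.union_sdiff_of_subset h1
    · rintro ⟨U, ⟨h1, h2⟩, rfl⟩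
      refine ⟨Finset.subset_union_left, ?_⟩
      rw [Finset.card_union_of_disjoint, h2]
      · omega
      · rw [Finset.disjoint_left]; intro x hx hx2
        have := h1 hx2; simp at this; exact this hx
  rw [this, Finset.card_image_of_injOn, Finset.card_powersetCard, Finset.card_compl,
    Fintype.card_fin]
  intro U hU U' hU' h
  rw [Finset.mem_coe, Finset.mem_powersetCard] at hU hU'
  simp only at h
  have hd : ∀ W : Finset (Fin n), W ⊆ Aᶜ → (A ∪ W) \ A = W := by
    intro W hW
    ext x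
    simp only [Finset.mem_sdiff, Finset.mem_union]
    constructor
    · rintro ⟨h1 | h1, h2⟩
      · exact absurd h1 h2
      · exact h1
    · intro h1
      have := hW h1
      simp at this
      exact ⟨Or.inr h1, this⟩
  rw [← hd U hU.1, ← hd U' hU'.1, h]

theorem count_faces {P G : Set E} (hP : IsPolytope P) (hs : IsSimplePolytope P) (a e : ℕ)
    (hG : G ∈ facesOfDim P a) (hae : a ≤ e) :
    {F | F ∈ facesOfDim P e ∧ G ⊆ F}.ncard = (dimOf P - a).choose (e - a) := by
  classical
  obtain ⟨hG1, hG2, hG3⟩ := hG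
  obtain ⟨v, hvG, hv⟩ := exists_vertex hP hG1 hG2
  obtain ⟨φ⟩ := hs v hv
  set A := φ ⟨G, hG1, hvG⟩ with hA
  have hAcard : A.card = a := by
    rw [← dim_eq_card v φ A, hA, OrderIso.symm_apply_apply]; exact hG3
  have himg : {F | F ∈ facesOfDim P e ∧ G ⊆ F} =
      (fun S : Finset (Fin (dimOf P)) => (φ.symm S).1) ''
        ((Finset.univ.filter (fun S : Finset (Fin (dimOf P)) => A ⊆ S ∧ S.card = e) :
          Finset (Finset (Fin (dimOf P)))) : Set (Finset (Fin (dimOf P)))) := by
    ext F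
    constructor
    · rintro ⟨⟨h1, h2, h3⟩, h4⟩
      refine ⟨φ ⟨F, h1, h4 hvG⟩, ?_, ?_⟩
      · rw [Finset.mem_coe, Finset.mem_filter]
        refine ⟨Finset.mem_univ _, ?_, ?_⟩
        · rw [hA]
          exact φ.monotone (show (⟨G, hG1, hvG⟩ : {F : Set E // IsFace P F ∧ v ∈ F}) ≤ ⟨F, h1, h4 hvG⟩ from h4)
        · rw [← dim_eq_card v φ, OrderIso.symm_apply_apply]; exact h3
      · simp
    · rintro ⟨S, hS, rfl⟩
      rw [Finset.mem_coe, Finset.mem_filter] at hS
      refine ⟨⟨(φ.symm S).2.1, ⟨v, (φ.symm S).2.2⟩, ?_⟩, ?_⟩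
      · rw [dim_eq_card]; exact hS.2.2
      · have h1 : φ.symm A ≤ φ.symm S := φ.symm.monotone hS.2.1
        rw [hA, OrderIso.symm_apply_apply] at h1
        exact h1
  rw [himg, Set.ncard_image_of_injective, Set.ncard_coe_finset, card_supersets A e (by omega),
    hAcard]
  intro S S' h
  exact φ.symm.injective (Subtype.ext h)

end normed

end Pool.Agent.H62.Toric
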