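import Pool.Agent.H62.Toric.Alg5
import Pool.Agent.H62.Toric.Alg3
import Pool.Agent.H62.Toric.Geom

namespace Pool.Agent.H62.Toric

open Polynomial

variable {E : Type*} [NormedAddCommGroup E] [NormedSpace ℝ E] [FiniteDimensional ℝ E]

/-- sum of the toric g-polynomials of the `e`-dimensional faces. -/
noncomputable def Ssum (P : Set E) (e : ℕ) : ℤ[X] := ∑ᶠ F ∈ facesOfDim P e, toricG e F

theorem lowPart_sum {ι : Type*} (s : Finset ι) (m : ℕ) (f : ι → ℤ[X]) :
    ∑ i ∈ s, lowPart m (f i) = lowPart m (∑ i ∈ s, f i) := by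
  classical
  induction s using Finset.induction_on with
  | empty => ext i; simp [coeff_lowPart]
  | insert a s ha ih => rw [Finset.sum_insert ha, Finset.sum_insert ha, lowPart_add, ih]

theorem Ssum_rec {P : Set E} (hP : IsPolytope P) (hs : IsSimplePolytope P) (e : ℕ) :
    Ssum P e = lowPart (e / 2) (-(w ^ (e + 1) * C (faceNumber P e : ℤ) +
      ∑ i ∈ Finset.range e, w ^ (e - i) * ((dimOf P - i).choose (e - i) : ℕ) * Ssum P i)) := by
  classical
  have hfe := finite_facesOfDim hP e
  rw [Ssum, finsum_mem_eq_finite_toFinset_sum _ hfe]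
  have h1 : ∀ F ∈ hfe.toFinset, toricG e F = lowPart (e / 2) ((1 - X) * ((X - 1) ^ e +
      ∑ k ∈ Finset.range e, (∑ G ∈ (finite_facesOfDim hP k).toFinset,
        (if G ⊆ F then toricG k G else 0)) * (X - 1) ^ (e - 1 - k))) := by
    intro F hF
    rw [Set.Finite.mem_toFinset] at hF
    rw [toricG, Finset.sum_range]
    congr 3
    apply Finset.sum_congr rfl
    intro k _
    congr 1
    rw [facesOfDim_face hF.1]
    have hfk : {G | G ∈ facesOfDim P (k : ℕ) ∧ G ⊆ F}.Finite :=
      (finite_facesOfDim hP k).subset (fun _ h => h.1)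
    rw [finsum_mem_eq_finite_toFinset_sum _ hfk, ← Finset.sum_filter]
    apply Finset.sum_congr _ (fun _ _ => rfl)
    ext G
    simp
  rw [Finset.sum_congr rfl h1, lowPart_sum]
  congr 1
  rw [← Finset.mul_sum, Finset.sum_add_distrib, Finset.sum_const, Finset.sum_comm]
  have h2 : ∀ k ∈ Finset.range e, ∑ F ∈ hfe.toFinset, (∑ G ∈ (finite_facesOfDim hP k).toFinset,
        (if G ⊆ F then toricG k G else 0)) * (X - 1) ^ (e - 1 - k) =
      (((dimOf P - k).choose (e - k) : ℕ) : ℤ[X]) * Ssum P k * (X - 1) ^ (e - 1 - k) := by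
    intro k hk
    rw [Finset.mem_range] at hk
    rw [← Finset.sum_mul, Finset.sum_comm]
    congr 1
    rw [Ssum, finsum_mem_eq_finite_toFinset_sum _ (finite_facesOfDim hP k), Finset.mul_sum]
    apply Finset.sum_congr rfl
    intro G hG
    rw [Set.Finite.mem_toFinset] at hG
    rw [← Finset.sum_filter, Finset.sum_const, nsmul_eq_mul]
    congr 2
    rw [← count_faces hP hs k e hG hk.le]
    have hfk : {F | F ∈ facesOfDim P e ∧ G ⊆ F}.Finite := hfe.subset (fun _ h => h.1)
    rw [Set.ncard_eq_toFinset_card _ hfk]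
    congr 1
    ext F
    simp
  rw [Finset.sum_congr rfl h2]
  have h3 : (hfe.toFinset.card : ℤ[X]) = C (faceNumber P e : ℤ) := by
    rw [faceNumber, Set.ncard_eq_toFinset_card _ hfe]; simp
  rw [nsmul_eq_mul, h3]
  have h4 : (1 - X : ℤ[X]) = -w := by rw [w]; ring
  rw [h4, mul_add, Finset.mul_sum, neg_add]
  congr 1
  · rw [← w, pow_succ]; ring
  · rw [← Finset.sum_neg_distrib]
    apply Finset.sum_congr rfl
    intro k hk
    rw [Finset.mem_range] at hk
    rw [← w, show e - k = (e - 1 - k) + 1 by omega, pow_succ]; ring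

theorem facesOfDim_top {P : Set E} (hP : IsPolytope P) (hne : P.Nonempty) :
    facesOfDim P (dimOf P) = {P} := by
  ext F
  constructor
  · rintro ⟨h1, h2, h3⟩
    by_contra hneq
    have := dimOf_lt (isFace_self hP) h1 h2 h1.2.subset hneq
    omega
  · intro h
    rw [Set.mem_singleton_iff] at h
    rw [h]
    exact ⟨isFace_self hP, hne, rfl⟩

theorem toricG_eq {P : Set E} (hP : IsPolytope P) (hne : P.Nonempty) (hs : IsSimplePolytope P)
    (γ : ℕ → ℤ) (hγ : IsGammaVector P γ) : toricG (dimOf P) P =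
      ∑ j ∈ Finset.range (dimOf P / 2 + 1), C (γ j) * T (X ^ (dimOf P - 2 * j) * Q ^ j) := by
  have h1 := unique_S (dimOf P) γ (fun i => (faceNumber P i : ℤ)) hγ (Ssum P)
    (fun e _ => Ssum_rec hP hs e) (dimOf P) le_rfl
  rw [Sh_top] at h1
  rw [← h1, Ssum, facesOfDim_top hP hne]
  simp

/-- Main theorem. -/
theorem kruskalKatona_toric {P : Set E} (hP : IsPolytope P) (hne : P.Nonempty)
    (hs : IsSimplePolytope P) (γ : ℕ → ℤ) (hγ : IsGammaVector P γ) (h0 : γ 0 = 1)
    (hnn : ∀ j ≤ dimOf P / 2, 0 ≤ γ j) :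
    KruskalKatona (dimOf P / 2) (toricGVector P) := by
  set d := dimOf P with hd
  have hg := toricG_eq hP hne hs γ hγ
  rw [← hd] at hg
  have hgood : ∀ s : Finset ℕ, s ⊆ Finset.range (d / 2 + 1) →
      Good d (∑ j ∈ s, C (γ j) * T (X ^ (d - 2 * j) * Q ^ j)) := by
    intro s
    induction s using Finset.induction_on with
    | empty => intro _; rw [Finset.sum_empty]; exact good_zero d
    | insert a s ha ih =>
      intro hsub
      rw [Finset.sum_insert ha]
      have hmem := hsub (Finset.mem_insert_self a s)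
      rw [Finset.mem_range] at hmem
      apply Good.add _ (ih (fun x hx => hsub (Finset.mem_insert_of_mem hx)))
      apply Good.smul _ (hnn a (by omega))
      have := good_T (d - 2 * a) a 0
      rw [h_zero, mul_one, show d - 2 * a + 2 * a + 0 = d by omega] at this
      exact this
  have hG : Good d (toricG d P) := by rw [hg]; exact hgood _ (Finset.Subset.refl _)
  have hlow : ∀ i, (T (X ^ d)).coeff i ≤ (toricG d P).coeff i := by
    intro i
    rw [hg, Finset.sum_range_succ', coeff_add]
    have e1 : C (γ 0) * T (X ^ (d - 2 * 0) * Q ^ 0) = T (X ^ d) := by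
      rw [h0]; simp
    rw [e1]
    have h5 : 0 ≤ (∑ k ∈ Finset.range (d / 2), C (γ (k + 1)) * T (X ^ (d - 2 * (k + 1)) * Q ^ (k + 1))).coeff i := by
      rw [finsetSum_coeff]
      apply Finset.sum_nonneg
      intro k hk
      rw [Finset.mem_range] at hk
      rw [coeff_C_mul]
      apply mul_nonneg (hnn (k + 1) (by omega))
      have := (good_T (d - 2 * (k + 1)) (k + 1) 0).1 i
      rw [h_zero, mul_one] at this
      exact this
    linarith
  refine ⟨?_, fun i _ => hG.1 i, ?_⟩
  · change (toricG d P).coeff 0 = 1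
    rw [hg, Finset.sum_range_succ', coeff_add, finsetSum_coeff, Finset.sum_eq_zero]
    · rw [zero_add, coeff_C_mul, h0, one_mul]
      have := T_X_pow_coeff_zero d 0
      rw [h_zero, mul_one] at this
      simpa using this
    · intro k _
      rw [coeff_C_mul, pow_succ, ← mul_assoc, T_coeff_zero_Q, mul_zero]
  · intro k hk1 hk2
    obtain ⟨k', rfl⟩ := Nat.exists_eq_add_of_le' hk1
    exact leUpper_of_good hG k' (by omega) (hlow (k' + 1))

end Pool.Agent.H62.Toric
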